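import Pool.Agent.Lib.MP_95f3db_an.NS.Defs
import Pool.Agent.Lib.MP_95f3db_an.Init

/-!
# Auxiliary notions for the north-south theorem
-/

namespace Pool.Agent.Lib.MP_95f3db_an.NS

open scoped Manifold ContDiff Topology
open Set Filter Metric Function

variable {E : Type*} [NormedAddCommGroup E] [NormedSpace ℝ E] {M : Type*} [TopologicalSpace M]
  [ChartedSpace E M] {P : Type*} [NormedAddCommGroup P] [NormedSpace ℝ P]

/-- Everything outside the open source ball is in the open sink ball after `m` steps. -/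
def Absorb (𝓕 : Frame E M P) (m : ℕ) (f : Diff1 E M) : Prop :=
  ∀ x ∉ 𝓕.φN.symm '' ball 0 𝓕.RN, (f ^ m) x ∈ 𝓕.φS.symm '' ball 0 𝓕.RS

variable [IsManifold 𝓘(ℝ, E) 1 M]

variable (E M) in
/-- Two nowhere vanishing vector fields on two open sets that cover are parallel somewhere. -/
def NoField : Prop :=
  ∀ (U₁ U₂ : Set M) (X Y : M → TM E M), IsOpen U₁ → IsOpen U₂ → U₁ ∪ U₂ = univ →
    ContinuousOn X U₁ → ContinuousOn Y U₂ → (∀ x ∈ U₁, (X x).1 = x ∧ (X x).2 ≠ 0) →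
    (∀ x ∈ U₂, (Y x).1 = x ∧ (Y x).2 ≠ 0) →
    ∃ x ∈ U₁ ∩ U₂, ∃ c : ℝ, X x = ⟨(Y x).1, c • (Y x).2⟩

end Pool.Agent.Lib.MP_95f3db_an.NS
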