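import Pool.Agent.Lib.MP_95f3db_an.NS.Base

/-!
# A one-parameter group in the centralizer along a wandering orbit of boxes
-/

namespace Pool.Agent.Lib.MP_95f3db_an.NS

open scoped Manifold ContDiff Topology
open Set Filter Metric Function

variable {E : Type*} [NormedAddCommGroup E] [NormedSpace ℝ E] {M : Type*} [TopologicalSpace M]
  [ChartedSpace E M] {F : Type*} [NormedAddCommGroup F] [NormedSpace ℝ F]
  {P : Type*} [NormedAddCommGroup P] [NormedSpace ℝ P]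

/-- A sequence of boxes that are affine in a chart, with bounded vertical distortion. -/
structure BoxesP (𝓜 : Model F) (f : Diff1 E M) (ι : F × ℝ → M)
    (φ : OpenPartialHomeomorph M P) (R C : ℝ) (idx : ℕ → ℤ) : Prop where
  ex : ∀ k, ∃ (a : P) (L : (F × ℝ) ≃L[ℝ] P),
    ‖L (0, 1)‖ * ‖(L.symm : P →L[ℝ] F × ℝ)‖ ≤ C ∧
    ∀ y ∈ 𝓜.D, a + L y ∈ closedBall 0 R ∧ (f ^ idx k) (ι y) = φ.symm (a + L y)

variable {𝓜 : Model F} {f : Diff1 E M} {ι : F × ℝ → M}

lemma small_affineP {Q : Type*} [NormedAddCommGroup Q] [NormedSpace ℝ Q] {D : Set Q} {η : Q → ℝ} 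
    {δ : ℝ} (hη : ContDiff ℝ 1 η)
    (hb : ∀ y, ‖fderiv ℝ η y‖ ≤ δ) (h0 : ∀ y ∉ D, η y = 0) (e : Q) (a : P) (L : Q ≃L[ℝ] P) :
    Small ((fun y => a + L y) '' D) (‖L e‖ * ‖(L.symm : P →L[ℝ] Q)‖ * δ)
      (fun x => η (L.symm (x - a)) • L e) := by
  have hi : ContDiff ℝ 1 fun x => L.symm (x - a) :=
    L.symm.contDiff.comp (contDiff_id.sub contDiff_const)
  refine ⟨(hη.comp hi).smul contDiff_const, fun x => ?_, fun x hx => ?_⟩
  · have h1 : HasFDerivAt (fun x => L.symm (x - a)) (L.symm : P →L[ℝ] Q) x := by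
      exact L.symm.hasFDerivAt.comp x ((hasFDerivAt_id x).sub_const a)
    have h2 := ((hη.differentiable one_ne_zero _).hasFDerivAt.comp x h1).smul_const (L e)
    have h3 : fderiv ℝ (fun x => η (L.symm (x - a)) • L e) x = _ := h2.fderiv
    rw [h3, ContinuousLinearMap.norm_smulRight_apply]
    have h4 := (fderiv ℝ η (L.symm (x - a))).opNorm_comp_le (L.symm : P →L[ℝ] Q)
    have h5 := hb (L.symm (x - a))
    calc _ ≤ (δ * ‖(L.symm : P →L[ℝ] Q)‖) * ‖L e‖ := by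
          gcongr
          exact h4.trans (by gcongr)
      _ = _ := by ring
  · rw [h0, zero_smul]
    intro h'
    exact hx ⟨_, h', by simp⟩

lemma acts_seqP [T2Space M] [FiniteDimensional ℝ P] {φ : OpenPartialHomeomorph M P}
    (hφ : IsChart E φ) {R C δ : ℝ} (hR : closedBall 0 R ⊆ φ.target) {idx : ℕ → ℤ}
    (hidx : Injective idx) (hB : BoxesP 𝓜 f ι φ R C idx)
    (hw : ∀ i : ℤ, ∀ y ∈ 𝓜.D, ∀ y' ∈ 𝓜.D, (f ^ i) (ι y) = ι y' → i = 0) {q : ℤ → ℝ × ℝ}
    (hq0 : ∀ i ∉ range idx, q i = 0) (hq : Tendsto (fun k => q (idx k)) atTop (𝓝 0))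
    (hδ : ∀ k, C * 𝓜.sz (q (idx k)) ≤ δ) (hδ' : δ ≤ 1 / 2) :
    ∃ u σ, Small (closedBall 0 R) δ u ∧ IsTr φ (closedBall 0 R) u σ ∧ Acts 𝓜 f ι σ q := by
  have : CompleteSpace P := FiniteDimensional.complete ℝ P
  have : ProperSpace P := FiniteDimensional.proper ℝ P
  choose a L hC hL using hB.ex
  have hw' : ∀ i j : ℤ, ∀ y ∈ 𝓜.D, ∀ y' ∈ 𝓜.D, (f ^ i) (ι y) = (f ^ j) (ι y') → i = j := by
    intro i j y hy y' hy' e
    have := hw (-j + i) y hy y' hy' (by
      rw [zpow_add, diff_mul_apply, e, ← diff_mul_apply, ← zpow_add, neg_add_cancel, zpow_zero,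
        diff_one_apply])
    omega
  obtain ⟨u, hu, hu'⟩ := Small.sum_disjoint (S := fun k => (fun y => a k + L k y) '' 𝓜.D)
    (v := fun k x => 𝓜.η (q (idx k)) ((L k).symm (x - a k)) • L k (0, 1))
    (d := fun k => C * 𝓜.sz (q (idx k))) (δ := δ)
    (fun k => (𝓜.cpt.image (by fun_prop)).isClosed)
    (fun k k' hk => Set.disjoint_left.mpr (by
      rintro _ ⟨y, hy, rfl⟩ ⟨y', hy', e⟩
      refine hk (hidx (hw' _ _ y hy y' hy' ?_))
      rw [(hL k y hy).2, (hL k' y' hy').2]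
      exact congrArg _ e.symm))
    (fun k => (small_affineP (𝓜.cd _) (𝓜.bd _) (𝓜.out _) _ (a k) (L k)).mono subset_rfl
      (mul_le_mul_of_nonneg_right (hC k) ((norm_nonneg _).trans (𝓜.bd _ 0))))
    (by simpa using (𝓜.lim.comp hq).const_mul C) hδ
  have hu2 : Small (closedBall 0 R) δ u := hu.mono (by
    rintro _ ⟨_, ⟨k, rfl⟩, y, hy, rfl⟩
    exact (hL k y hy).1) le_rfl
  obtain ⟨σ, hσ⟩ := exists_tr hφ (isCompact_closedBall _ _) hR hu2 hδ'
  have hout : ∀ x, (∀ k, ∀ y ∈ 𝓜.D, x ≠ (f ^ idx k) (ι y)) → σ x = x := by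
    intro x hx
    by_cases h : x ∈ φ.symm '' closedBall 0 R
    · obtain ⟨z, hz, rfl⟩ := h
      rw [hσ.eq z (hR hz), hu.zero, add_zero]
      rintro ⟨_, ⟨k, rfl⟩, y, hy, rfl⟩
      exact hx k y hy (hL k y hy).2.symm
    · exact hσ.out x h
  refine ⟨u, σ, hu2, hσ, fun i y hy => ?_, fun x hx => hout x fun k => hx _⟩
  by_cases hi : i ∈ range idx
  · obtain ⟨k, rfl⟩ := hi
    rw [(hL k y hy).2, hσ.eq _ (hR (hL k y hy).1), hu' k _ ⟨y, hy, rfl⟩,
      (hL k _ (𝓜.H_mem _ y hy)).2]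
    simp only [Model.H, add_sub_cancel_left, ContinuousLinearEquiv.symm_apply_apply, map_add,
      map_smul, add_assoc]
  · rw [hq0 i hi, 𝓜.H_zero, hout]
    intro k y' hy' e
    exact hi ⟨k, (hw' _ _ y hy y' hy' e).symm⟩

lemma acts_unique {k k' : Diff1 E M} {q : ℤ → ℝ × ℝ} (h : Acts 𝓜 f ι k q)
    (h' : Acts 𝓜 f ι k' q) : k = k' := by
  refine Diffeomorph.ext fun x => ?_
  by_cases hx : ∃ i : ℤ, ∃ y ∈ 𝓜.D, x = (f ^ i) (ι y)
  · obtain ⟨i, y, hy, rfl⟩ := hx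
    rw [h.eq i y hy, h'.eq i y hy]
  · push Not at hx
    rw [h.out x hx, h'.out x hx]

lemma acts_add (hadd : ∀ (b b' : ℝ) (y : F × ℝ), 𝓜.η (0, b + b') y =
      𝓜.η (0, b') y + 𝓜.η (0, b) (y + 𝓜.η (0, b') y • ((0, 1) : F × ℝ)))
    {k k' : Diff1 E M} {b b' : ℤ → ℝ} (h : Acts 𝓜 f ι k fun i => (0, b i))
    (h' : Acts 𝓜 f ι k' fun i => (0, b' i)) :
    Acts 𝓜 f ι (k * k') fun i => (0, b i + b' i) := by
  refine ⟨fun i y hy => ?_, fun x hx => by rw [diff_mul_apply, h'.out x hx, h.out x hx]⟩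
  rw [diff_mul_apply, h'.eq i y hy, h.eq i _ (𝓜.H_mem _ y hy)]
  simp only [Model.H, hadd, add_smul, add_assoc]

variable [FiniteDimensional ℝ P] [IsManifold 𝓘(ℝ, E) 1 M] [FiniteDimensional ℝ E] [CompactSpace M]
  [T2Space M]

omit [CompactSpace M] [FiniteDimensional ℝ E] in
lemma acts_small {φ : OpenPartialHomeomorph M P}
    (hφ : IsChart E φ) {R C : ℝ} (hR : closedBall 0 R ⊆ φ.target) {idx : ℕ → ℤ}
    (hidx : Injective idx) (hB : BoxesP 𝓜 f ι φ R C idx)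
    (hw : ∀ i : ℤ, ∀ y ∈ 𝓜.D, ∀ y' ∈ 𝓜.D, (f ^ i) (ι y) = ι y' → i = 0) {c : ℤ → ℝ}
    (hc0 : ∀ i ∉ range idx, c i = 0) (hc : Tendsto (fun k => c (idx k)) atTop (𝓝 0))
    (hc1 : ∀ i, |c i| ≤ 1) {W : Set (Diff1 E M)} (hW : W ∈ 𝓝 1) :
    ∀ᶠ t : ℝ in 𝓝 0, ∃ G ∈ W, Acts 𝓜 f ι G fun i => (0, t * c i) := by
  have : ProperSpace P := FiniteDimensional.proper ℝ P
  obtain ⟨δ, hδ, H⟩ := exists_small_mem hφ (isCompact_closedBall _ _) hR hW
  obtain ⟨b, hb, szb⟩ := 𝓜.exists_sz C (show 0 < min δ (1 / 2) by positivity)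
  filter_upwards [closedBall_mem_nhds 0 hb] with t ht
  obtain ⟨u, σ, a1, a2, a3⟩ := acts_seqP hφ hR hidx hB hw (q := fun i => (0, t * c i))
    (fun i hi => by rw [hc0 i hi, mul_zero]; rfl)
    (tendsto_const_nhds.prodMk_nhds (by simpa using hc.const_mul t))
    (fun k => szb _ (by simpa using hb.le) (by
      rw [abs_mul]
      exact (mul_le_of_le_one_right (abs_nonneg _) (hc1 _)).trans (mem_closedBall_zero_iff.mp ht)))
    (min_le_right _ _)
  exact ⟨σ, H u σ (a1.mono subset_rfl (min_le_left _ _)) a2, a3⟩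

omit [FiniteDimensional ℝ P] [CompactSpace M] [T2Space M] in
lemma near_add (hadd : ∀ (b b' : ℝ) (y : F × ℝ), 𝓜.η (0, b + b') y =
      𝓜.η (0, b') y + 𝓜.η (0, b) (y + 𝓜.η (0, b') y • ((0, 1) : F × ℝ))) {c c' : ℤ → ℝ}
    (h : ∀ W ∈ 𝓝 (1 : Diff1 E M), ∀ᶠ t : ℝ in 𝓝 0, ∃ G ∈ W, Acts 𝓜 f ι G fun i => (0, t * c i))
    (h' : ∀ W ∈ 𝓝 (1 : Diff1 E M), ∀ᶠ t : ℝ in 𝓝 0,
      ∃ G ∈ W, Acts 𝓜 f ι G fun i => (0, t * c' i)) :
    ∀ W ∈ 𝓝 (1 : Diff1 E M), ∀ᶠ t : ℝ in 𝓝 0,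
      ∃ G ∈ W, Acts 𝓜 f ι G fun i => (0, t * (c + c') i) := by
  intro W hW
  obtain ⟨W', hW', hs⟩ := exists_nhds_one_split hW
  filter_upwards [h W' hW', h' W' hW'] with t ⟨G, a1, a2⟩ ⟨G', a3, a4⟩
  exact ⟨G * G', hs _ a1 _ a3, by simpa only [Pi.add_apply, mul_add] using acts_add hadd a2 a4⟩

omit [FiniteDimensional ℝ P] [CompactSpace M] [T2Space M] in
lemma acts_flow (hadd : ∀ (b b' : ℝ) (y : F × ℝ), 𝓜.η (0, b + b') y =
      𝓜.η (0, b') y + 𝓜.η (0, b) (y + 𝓜.η (0, b') y • ((0, 1) : F × ℝ)))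
    {Ψ : Diff1 E M} {a c : ℤ → ℝ} (hΨ : Acts 𝓜 f ι Ψ fun i => (a i, 0))
    (h : ∀ i, Real.exp (a i) * c i = c (i + 1)) (hc : c 0 ≠ 0) (hinj : InjOn ι 𝓜.D)
    (hnear : ∀ W ∈ 𝓝 (1 : Diff1 E M), ∀ᶠ t : ℝ in 𝓝 0,
      ∃ G ∈ W, Acts 𝓜 f ι G fun i => (0, t * c i)) :
    FlowInCentralizer (f * Ψ) := by
  obtain ⟨b, hb, hb'⟩ := Metric.nhds_basis_closedBall.eventually_iff.mp (hnear univ univ_mem)
  have hex : ∀ t : ℝ, |t| ≤ b → ∃ G, Acts 𝓜 f ι G fun i => (0, t * c i) := fun t ht =>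
    (hb' (mem_closedBall_zero_iff.mpr ht)).imp fun _ h => h.2
  have h1 : ∀ (k : ℕ) (t : ℝ), |t| ≤ b → ∃ G, Acts 𝓜 f ι G fun i => (0, k * t * c i) := by
    intro k t ht
    induction k with
    | zero => exact ⟨1, by simpa using! Acts.one⟩
    | succ k ih =>
      obtain ⟨G, hG⟩ := ih
      obtain ⟨G', hG'⟩ := hex t ht
      refine ⟨G * G', ?_⟩
      convert acts_add hadd hG hG' using 3 with i
      push_cast
      ring
  have h2 : ∀ t : ℝ, ∃ G, Acts 𝓜 f ι G fun i => (0, t * c i) := fun t => by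
    obtain ⟨k, hk⟩ := exists_nat_gt (|t| / b)
    have hk0 : (0 : ℝ) < k := lt_of_le_of_lt (by positivity) hk
    obtain ⟨G, hG⟩ := h1 k (t / k) (by
      rw [abs_div, abs_of_pos hk0, div_le_iff₀ hk0]
      rw [div_lt_iff₀ hb] at hk
      linarith)
    exact ⟨G, by rwa [mul_div_cancel₀ _ hk0.ne'] at hG⟩
  choose G hG using h2
  have h3 : ∀ s t, G (s + t) = G s * G t := fun s t => by
    refine acts_unique (hG _) ?_
    simpa only [add_mul] using acts_add hadd (hG s) (hG t)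
  have h4 : G 0 = 1 := acts_unique (hG 0) (by simpa using! Acts.one)
  have h5 : Tendsto G (𝓝 0) (𝓝 1) := fun W hW =>
    (hnear W hW).mono fun t ⟨G', h1, h2⟩ => show G t ∈ W from acts_unique h2 (hG t) ▸ h1
  refine ⟨G, continuous_iff_continuousAt.mpr fun t => ?_, fun s t e => ?_,
    fun s t => by rw [h3, diff_coe_mul], fun t =>
    (hG t).commute hΨ fun i => by rw [mul_left_comm, h i]⟩
  · have h6 : Tendsto (fun s => s - t) (𝓝 t) (𝓝 0) := by
      simpa using (continuous_sub_right t).tendsto t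
    have h7 := (h5.comp h6).mul_const (G t)
    rw [one_mul] at h7
    exact h7.congr fun s => by rw [comp_apply, ← h3, sub_add_cancel]
  have e1 : G (s - t) = 1 := by
    rw [sub_eq_add_neg, h3, e, ← h3, add_neg_cancel, h4]
  have e2 := (hG (s - t)).eq 0 0 𝓜.zero_mem
  rw [e1, zpow_zero, diff_one_apply, diff_one_apply, diff_one_apply] at e2
  have e3 := congrArg Prod.snd (hinj 𝓜.zero_mem (𝓜.H_mem _ _ 𝓜.zero_mem) e2)
  simp only [Model.H, Prod.snd_zero, zero_add, Prod.smul_snd, smul_eq_mul, mul_one] at e3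
  by_contra hne
  exact 𝓜.ne _ (mul_ne_zero (sub_ne_zero.mpr hne) hc) e3.symm

theorem coreP {𝓕 : Frame E M P} (hf : Good 𝓕 f) {W : Set (Diff1 E M)} (hW : W ∈ 𝓝 f)
    (hadd : ∀ (b b' : ℝ) (y : F × ℝ), 𝓜.η (0, b + b') y =
      𝓜.η (0, b') y + 𝓜.η (0, b) (y + 𝓜.η (0, b') y • ((0, 1) : F × ℝ)))
    {n : ℕ} (hn : 1 ≤ n) {C : ℝ} (hS : BoxesP 𝓜 f ι 𝓕.φS 𝓕.RS C fun k => n + k)
    (hN : BoxesP 𝓜 f ι 𝓕.φN 𝓕.RN C fun k => -k)
    (hw : ∀ i : ℤ, ∀ y ∈ 𝓜.D, ∀ y' ∈ 𝓜.D, (f ^ i) (ι y) = ι y' → i = 0) :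
    ∃ f' ∈ W, Good 𝓕 f' ∧ FlowInCentralizer f' := by
  classical
  have tS : closedBall 0 𝓕.RS ⊆ 𝓕.φS.target := fun y hy => (hf.S.dom hy).1
  have tN : closedBall 0 𝓕.RN ⊆ 𝓕.φN.target := fun y hy => (hf.N.dom hy).1
  have iS : Injective fun k : ℕ => (n : ℤ) + k := fun k k' h => by simpa using h
  have iN : Injective fun k : ℕ => -(k : ℤ) := fun k k' h => by simpa using h
  have rS : ∀ i : ℤ, i ∉ range (fun k : ℕ => (n : ℤ) + k) → i < n := fun i hi => by
    by_contra h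
    exact hi ⟨(i - n).toNat, by simp only; omega⟩
  have rN : ∀ i : ℤ, i ∉ range (fun k : ℕ => -(k : ℤ)) → 0 < i := fun i hi => by
    by_contra h
    exact hi ⟨(-i).toNat, by simp only; omega⟩
  -- the perturbation on the sink side
  have hint : interior W ∈ 𝓝 f := interior_mem_nhds.mpr hW
  obtain ⟨δS, hδS, hδS', pS⟩ := hf.pert hint (Or.inl ⟨rfl, rfl⟩)
  obtain ⟨εS, hεS, szS⟩ := 𝓜.exists_sz C hδS
  obtain ⟨cS, cS0, cS1, cS2, cS3, cS4⟩ := exists_slow hεS
  obtain ⟨uS, σS, s1, s2, s3⟩ := acts_seqP (δ := δS) 𝓕.cS tS iS hS hw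
    (q := fun i => (cS (i + 1 - n).toNat - cS (i - n).toNat, 0))
    (fun i hi => by
      have := rS i hi
      rw [show (i + 1 - n).toNat = 0 by omega, show (i - n).toNat = 0 by omega, sub_self]; rfl)
    (by
      refine (cS4.prodMk_nhds tendsto_const_nhds).congr fun k => ?_
      rw [show ((n : ℤ) + k + 1 - n).toNat = k + 1 by omega,
        show ((n : ℤ) + k - n).toNat = k by omega])
    (fun k => szS _ (by
      rw [show ((n : ℤ) + k + 1 - n).toNat = k + 1 by omega,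
        show ((n : ℤ) + k - n).toNat = k by omega]
      exact cS3 k) (by simpa using hεS.le)) hδS'
  obtain ⟨g1, w1⟩ := pS uS σS s1 s2
  -- the perturbation on the source side
  obtain ⟨δN, hδN, hδN', pN⟩ := g1.pert (isOpen_interior.mem_nhds w1) (Or.inr ⟨rfl, rfl⟩)
  obtain ⟨εN, hεN, szN⟩ := 𝓜.exists_sz C hδN
  obtain ⟨cN, cN0, cN1, cN2, cN3, cN4⟩ := exists_slow hεN
  obtain ⟨uN, σN, n1, n2, n3⟩ := acts_seqP (δ := δN) 𝓕.cN tN iN hN hw
    (q := fun i => (cN (-(i + 1)).toNat - cN (-i).toNat, 0))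
    (fun i hi => by
      have := rN i hi
      rw [show (-(i + 1)).toNat = 0 by omega, show (-i).toNat = 0 by omega, sub_self]; rfl)
    (by
      rw [← tendsto_add_atTop_iff_nat 1]
      have := cN4.neg
      rw [neg_zero] at this
      refine (this.prodMk_nhds tendsto_const_nhds).congr fun k => ?_
      rw [show (-(-((k + 1 : ℕ) : ℤ) + 1)).toNat = k by omega,
        show (-(-((k + 1 : ℕ) : ℤ))).toNat = k + 1 by omega, neg_sub])
    (fun k => szN _ (by
      rcases k with _ | k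
      · simpa using hεN.le
      · rw [show (-(-((k + 1 : ℕ) : ℤ) + 1)).toNat = k by omega,
          show (-(-((k + 1 : ℕ) : ℤ))).toNat = k + 1 by omega, abs_sub_comm]
        exact cN3 k) (by simpa using hεN.le)) hδN'
  obtain ⟨g2, w2⟩ := pN uN σN n1 n2
  refine ⟨_, interior_subset w2, g2, ?_⟩
  rw [mul_assoc]
  set l : ℤ → ℝ := fun i => cS (i - n).toNat + cN (-i).toNat with hl
  have hΨ : Acts 𝓜 f ι (σS * σN) fun i => (l (i + 1) - l i, 0) := by
    have := s3.mul n3 fun i => by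
      by_cases hi : i < n
      · left
        rw [show (i + 1 - n).toNat = 0 by omega, show (i - n).toNat = 0 by omega, sub_self]; rfl
      · right
        rw [show (-(i + 1)).toNat = 0 by omega, show (-i).toNat = 0 by omega, sub_self]; rfl
    convert this using 2 with i
    simp only [hl, Pi.add_apply, Prod.mk_add_mk, add_zero]
    congr 1
    ring
  -- the commuting diffeomorphism
  refine acts_flow hadd (c := fun i => Real.exp (l i)) hΨ (fun i => ?_) (Real.exp_pos _).ne'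
    ?_ ?_
  · rw [← Real.exp_add, sub_add_cancel]
  · obtain ⟨a, L, -, h⟩ := hN.ex 0
    intro y hy y' hy' e
    have e1 := (h y hy).2
    have e2 := (h y' hy').2
    rw [e, e2] at e1
    have := 𝓕.φN.symm.injOn (tN (h y' hy').1) (tN (h y hy).1) e1
    exact (L.injective (add_left_cancel this)).symm
  set q : ℤ → ℝ := fun i => Real.exp (l i) with hq
  have hqb : ∀ (s : Set ℤ) i, |s.indicator q i| ≤ 1 := fun s i => by
    by_cases hi : i ∈ s
    · rw [indicator_of_mem hi, abs_of_pos (Real.exp_pos _)]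
      exact Real.exp_le_one_iff.mpr (add_nonpos (cS1 _) (cN1 _))
    · rw [indicator_of_notMem hi]; norm_num
  have a1 := fun W hW => acts_small 𝓕.cS tS iS hS hw (c := (Ici (n : ℤ)).indicator q)
    (fun i hi => indicator_of_notMem (by simpa using rS i hi) _)
    ((Real.tendsto_exp_atBot.comp cS2).congr fun k => by
      rw [indicator_of_mem (by simp)]
      simp only [hq, hl]
      rw [show ((n : ℤ) + k - n).toNat = k by omega, show (-((n : ℤ) + k)).toNat = 0 by omega, cN0,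
        add_zero, comp_apply])
    (hqb _) (W := W) hW
  have a2 := fun W hW => acts_small 𝓕.cN tN iN hN hw (c := (Iic (0 : ℤ)).indicator q)
    (fun i hi => indicator_of_notMem (by simpa using rN i hi) _)
    ((Real.tendsto_exp_atBot.comp cN2).congr fun k => by
      rw [indicator_of_mem (by simp)]
      simp only [hq, hl]
      rw [show (-(k : ℤ) - n).toNat = 0 by omega, show (-(-(k : ℤ))).toNat = k by omega, cS0,
        zero_add, comp_apply])
    (hqb _) (W := W) hW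
  have a3 : ∀ T : Finset ℤ, ∀ W ∈ 𝓝 (1 : Diff1 E M), ∀ᶠ t : ℝ in 𝓝 0,
      ∃ G ∈ W, Acts 𝓜 f ι G fun i => (0, t * (T : Set ℤ).indicator q i) := by
    intro T
    induction T using Finset.induction_on with
    | empty =>
      exact fun W hW => .of_forall fun t => ⟨1, mem_of_mem_nhds hW, by simpa using! Acts.one⟩
    | insert i T hi ih =>
      have b1 : ∀ W ∈ 𝓝 (1 : Diff1 E M), ∀ᶠ t : ℝ in 𝓝 0,
          ∃ G ∈ W, Acts 𝓜 f ι G fun j => (0, t * ({i} : Set ℤ).indicator q j) := by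
        intro W hW
        have b2 : Tendsto (fun σ => f ^ i * σ * f ^ (-i)) (𝓝 1) (𝓝 1) := by
          have : Continuous fun σ => f ^ i * σ * f ^ (-i) := by fun_prop
          simpa using this.tendsto 1
        filter_upwards [acts_small 𝓕.cN tN iN hN hw
          (c := fun j => ({i} : Set ℤ).indicator q (j + i))
          (fun j hj => indicator_of_notMem (by have := rN j hj; simp; omega) _)
          (tendsto_const_nhds.congr' (by
            filter_upwards [eventually_ge_atTop 1] with k hk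
            exact (indicator_of_notMem (by simp; omega) _).symm))
          (fun k => hqb _ _) (b2 hW)] with t ⟨G, b3, b4⟩
        exact ⟨_, b3, by simpa only [sub_add_cancel] using b4.conj i⟩
      convert near_add hadd b1 ih using 9 with W hW t G j
      rw [Finset.coe_insert, insert_eq, indicator_union_of_disjoint (by simpa using hi)]
      rfl
  convert near_add hadd (near_add hadd a1 a2) (a3 (Finset.Ioo 0 (n : ℤ))) using 9 with W hW t G i
  simp only [Pi.add_apply, indicator_apply, mem_Ici, mem_Iic, Finset.coe_Ioo, mem_Ioo]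
  split_ifs <;> first | omega | simp [hq]

end Pool.Agent.Lib.MP_95f3db_an.NS
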