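import Pool.Agent.Lib.MP_95f3db_an.Defs

/-!
# North-south diffeomorphisms; one-parameter groups in the centralizer
-/

namespace Pool.Agent.Lib.MP_95f3db_an.NS

open scoped Manifold ContDiff Topology

/-- The C1 diffeomorphisms of the unit sphere of dimension `d`. -/
abbrev SD (d : ℕ) : Type :=
  Diff1 (EuclideanSpace ℝ (Fin d)) (Metric.sphere (0 : EuclideanSpace ℝ (Fin (d + 1))) 1)

variable {E : Type*} [NormedAddCommGroup E] [NormedSpace ℝ E] {M : Type*} [TopologicalSpace M]
  [ChartedSpace E M]

variable [IsManifold 𝓘(ℝ, E) 1 M]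

/-- The centralizer of `f` among the C1 diffeomorphisms contains an injective one-parameter
group that is continuous for the C1 topology. -/
def FlowInCentralizer (f : Diff1 E M) : Prop :=
  ∃ G : ℝ → Diff1 E M, @Continuous _ _ _ (c1Top E M) G ∧ Function.Injective G ∧
    (∀ s t, ⇑(G (s + t)) = G s ∘ G t) ∧ ∀ t, G t ∘ f = f ∘ G t

/-- `S` is a hyperbolic attracting fixed point of `f`. -/
def IsSink (f : Diff1 E M) (S : M) : Prop :=
  f S = S ∧ ∃ g : ∀ x : M, LinearMap.BilinForm ℝ (TangentSpace 𝓘(ℝ, E) x), IsRiemannian g ∧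
    Contracted g f {S} fun _ => ⊤

variable (E M) in
/-- North-south diffeomorphisms: the nonwandering set consists of a hyperbolic source and a
hyperbolic sink. -/
def northSouth : Set (Diff1 E M) :=
  {f | ∃ N S : M, N ≠ S ∧ nonwandering f = {N, S} ∧ IsSink f S ∧ IsSink f.symm N}

end Pool.Agent.Lib.MP_95f3db_an.NS
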