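import Pool.Agent.Lib.MP_95f3db_an.NS.Open
import Pool.Agent.Lib.MP_95f3db_an.Grad

/-!
# A north-south diffeomorphism of the sphere
-/

namespace Pool.Agent.Lib.MP_95f3db_an.NS

open scoped Manifold ContDiff Topology
open Set Filter Metric Function

variable {V : Type*} [NormedAddCommGroup V] [InnerProductSpace ℝ V]

/-- A conformal map that pushes the sphere towards `e`. -/
noncomputable def boost (e x : V) : V :=
  (5 + 3 * inner ℝ e x)⁻¹ • ((4 : ℝ) • x + (3 + inner ℝ e x) • e)

lemma ex_abs (e x : sphere (0 : V) 1) : |inner ℝ (e : V) (x : V)| ≤ 1 := by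
  simpa using abs_real_inner_le_norm (e : V) (x : V)

lemma ex_pos (e x : sphere (0 : V) 1) : 0 < 5 + 3 * inner ℝ (e : V) (x : V) := by
  linarith [(abs_le.mp (ex_abs e x)).1]

lemma ex_inner (e x : sphere (0 : V) 1) : inner ℝ (e : V) (boost (e : V) x) =
    (3 + 5 * inner ℝ (e : V) (x : V)) / (5 + 3 * inner ℝ (e : V) (x : V)) := by
  have := (ex_pos e x).ne'
  simp only [boost, inner_smul_right, inner_add_right, real_inner_self_eq_norm_sq,
    norm_eq_of_mem_sphere]
  field_simp
  ring

lemma ex_mem (e x : sphere (0 : V) 1) : boost (e : V) x ∈ sphere (0 : V) 1 := by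
  have h := ex_pos e x
  rw [mem_sphere_zero_iff_norm, boost, norm_smul, norm_inv, Real.norm_of_nonneg h.le,
    inv_mul_eq_one₀ h.ne']
  refine (pow_left_inj₀ h.le (norm_nonneg _) two_ne_zero).mp ?_
  rw [norm_add_sq_real, inner_smul_left, inner_smul_right, norm_smul, norm_smul, mul_pow, mul_pow,
    Real.norm_eq_abs, Real.norm_eq_abs, sq_abs, sq_abs, real_inner_comm (e : V) (x : V),
    norm_eq_of_mem_sphere, norm_eq_of_mem_sphere]
  simp only [conj_trivial]
  ring

/-- The same map on the sphere. -/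
noncomputable def boostS (e x : sphere (0 : V) 1) : sphere (0 : V) 1 := ⟨_, ex_mem e x⟩

lemma ex_inv (e x : sphere (0 : V) 1) : boostS (-e) (boostS e x) = x := by
  have h := (ex_pos e x).ne'
  refine Subtype.ext ?_
  show boost (-(e : V)) (boost (e : V) x) = x
  rw [boost, inner_neg_left, ex_inner, boost]
  have h1 : 5 + 3 * -((3 + 5 * inner ℝ (e : V) (x : V)) / (5 + 3 * inner ℝ (e : V) (x : V))) =
      16 / (5 + 3 * inner ℝ (e : V) (x : V)) := by
    field_simp
    ring
  rw [h1]
  match_scalars <;> field_simp <;> ring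

lemma ex_fix (e : sphere (0 : V) 1) : boostS e e = e := by
  refine Subtype.ext ?_
  show boost (e : V) e = e
  rw [boost, real_inner_self_eq_norm_sq, norm_eq_of_mem_sphere]
  match_scalars
  norm_num

lemma ex_fix' (e : sphere (0 : V) 1) : boostS e (-e) = -e := by
  have := ex_inv (-e) (-e)
  rwa [neg_neg, ex_fix] at this

lemma ex_lt (e x : sphere (0 : V) 1) (h1 : x ≠ e) (h2 : x ≠ -e) :
    inner ℝ (e : V) (x : V) < inner ℝ (e : V) (boostS e x : V) := by
  have a1 : inner ℝ (e : V) (x : V) < 1 :=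
    (inner_lt_one_iff_real_of_norm_eq_one (norm_eq_of_mem_sphere e) (norm_eq_of_mem_sphere x)).mpr
      fun h => h1 (Subtype.ext h.symm)
  have a2 : inner ℝ ((-e : sphere (0 : V) 1) : V) (x : V) < 1 :=
    (inner_lt_one_iff_real_of_norm_eq_one (norm_eq_of_mem_sphere (-e)) (norm_eq_of_mem_sphere x)).mpr
      fun h => h2 (Subtype.ext h.symm)
  rw [coe_neg_sphere, inner_neg_left] at a2
  show _ < inner ℝ (e : V) (boost (e : V) x)
  rw [ex_inner, lt_div_iff₀ (ex_pos e x)]
  nlinarith

variable {d : ℕ} [Fact (Module.finrank ℝ V = d + 1)]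

lemma ex_smooth (e : sphere (0 : V) 1) : ContMDiff (𝓡 d) (𝓡 d) 1 (boostS e) := by
  have h1 : ∀ x : sphere (0 : V) 1, ContDiffAt ℝ 1 (boost (e : V)) x := fun x => by
    have h2 : ContDiffAt ℝ 1 (fun y : V => inner ℝ (e : V) y) x :=
      contDiffAt_const.inner ℝ contDiffAt_id
    exact ((contDiffAt_const.add (contDiffAt_const.mul h2)).inv (ex_pos e x).ne').smul
      ((contDiffAt_id.const_smul (4 : ℝ)).add ((contDiffAt_const.add h2).smul contDiffAt_const))
  exact ContMDiff.codRestrict_sphere (f := fun x : sphere (0 : V) 1 => boost (e : V) x)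
    (fun x => (h1 x).contMDiffAt.comp x (contMDiff_coe_sphere x)) (ex_mem e)

lemma ex_chart (e x : sphere (0 : V) 1) (hx : x ≠ -e) :
    stereographic' d (-e) (boostS e x) = (1 / 2 : ℝ) • stereographic' d (-e) x := by
  have a2 : inner ℝ ((-e : sphere (0 : V) 1) : V) (x : V) < 1 :=
    (inner_lt_one_iff_real_of_norm_eq_one (norm_eq_of_mem_sphere (-e)) (norm_eq_of_mem_sphere x)).mpr
      fun h => hx (Subtype.ext h.symm)
  have key : stereographic (norm_eq_of_mem_sphere (-e)) (boostS e x) =
      (1 / 2 : ℝ) • stereographic (norm_eq_of_mem_sphere (-e)) x := by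
    have h0 : (ℝ ∙ ((-e : sphere (0 : V) 1) : V))ᗮ.orthogonalProjectionOnto (e : V) = 0 := by
      have := Submodule.orthogonalProjectionOnto_orthogonalComplement_singleton_eq_zero
        (𝕜 := ℝ) ((-e : sphere (0 : V) 1) : V)
      rwa [coe_neg_sphere, map_neg, neg_eq_zero] at this
    have h1 : ((boostS e x : sphere (0 : V) 1) : V) = boost (e : V) x := rfl
    rw [stereographic_apply, stereographic_apply, h1]
    rw [coe_neg_sphere, inner_neg_left] at a2
    rw [show inner ℝ ((-e : sphere (0 : V) 1) : V) (boost (e : V) x) =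
        -inner ℝ (e : V) (boost (e : V) x) from inner_neg_left _ _,
      show inner ℝ ((-e : sphere (0 : V) 1) : V) (x : V) = -inner ℝ (e : V) (x : V) from
        inner_neg_left _ _, ex_inner, boost, map_smul, map_add, map_smul, map_smul, h0, smul_zero,
      add_zero, smul_smul, smul_smul, smul_smul]
    congr 1
    have a3 := (ex_pos e x).ne'
    have a4 : 1 + inner ℝ (e : V) (x : V) ≠ 0 := by linarith
    have a5 : 1 - -((3 + 5 * inner ℝ (e : V) (x : V)) / (5 + 3 * inner ℝ (e : V) (x : V))) =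
        8 * (1 + inner ℝ (e : V) (x : V)) / (5 + 3 * inner ℝ (e : V) (x : V)) := by
      field_simp
      ring
    rw [a5, sub_neg_eq_add]
    generalize 5 + 3 * inner ℝ (e : V) (x : V) = u at a3
    field_simp
    ring
  simp only [stereographic', OpenPartialHomeomorph.coe_trans, comp_apply, key]
  exact map_smul (OrthonormalBasis.fromOrthogonalSpanSingleton d
    (ne_zero_of_mem_unit_sphere (-e))).repr _ _

lemma ex_sink (e : sphere (0 : V) 1) {k : Diff1 (EuclideanSpace ℝ (Fin d)) (sphere (0 : V) 1)}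
    (hk : ∀ x, k x = boostS e x) : IsSink k e := by
  have : FiniteDimensional ℝ V := .of_fact_finrank_eq_succ d
  obtain ⟨g, hg⟩ := exists_riemannian (E := EuclideanSpace ℝ (Fin d)) (M := sphere (0 : V) 1)
  have hφ : IsChart (EuclideanSpace ℝ (Fin d)) (stereographic' d (-e)) := isChart_chartAt e
  set φ := stereographic' d (-e) with hφ'
  have ht : ∀ y, y ∈ φ.target := fun y => by simp [hφ']
  have hs : ∀ x, x ∈ φ.source ↔ x ≠ -e := fun x => by simp [hφ']
  have hrep : rep k φ φ = fun y => (1 / 2 : ℝ) • y := by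
    funext y
    rw [rep, hk, ex_chart e _ ((hs _).mp (φ.map_target (ht y))), φ.right_inv (ht y)]
  have hc : Contr k φ 1 := by
    refine ⟨one_pos, fun y _ => ⟨ht y, (hs _).mpr fun h => ?_⟩, fun y hy => ?_, fun y _ => ?_⟩
    · rw [← ex_fix' e, ← hk] at h
      exact (hs _).mp (φ.map_target (ht y)) (diff_inj k h)
    · rw [hrep, mem_ball_zero_iff, norm_smul]
      rw [mem_closedBall_zero_iff] at hy
      norm_num
      linarith
    · have h1 : HasFDerivAt (fun y : EuclideanSpace ℝ (Fin d) => (1 / 2 : ℝ) • y)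
          ((1 / 2 : ℝ) • ContinuousLinearMap.id ℝ _) y :=
        (hasFDerivAt_id y).const_smul (1 / 2 : ℝ)
      rw [hrep, h1.fderiv, norm_smul]
      have := ContinuousLinearMap.norm_id_le (𝕜 := ℝ) (E := EuclideanSpace ℝ (Fin d))
      norm_num
      linarith
  have he : e ∈ φ.source := (hs e).mpr (ne_neg_of_mem_unit_sphere ℝ e)
  have h0 : φ e = 0 := by
    have := ex_chart (d := d) e e ((hs e).mp he)
    rw [ex_fix] at this
    have h2 : (1 / 2 : ℝ) • φ e = 0 := by
      rw [← sub_eq_zero.mpr this]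
      module
    simpa using h2
  have := hc.sink hφ (s := 0) (by simp) (by simp [hrep])
  rw [← h0, φ.left_inv he] at this
  exact open_isSink this hg

theorem northSouth_nonempty :
    (northSouth (EuclideanSpace ℝ (Fin d)) (sphere (0 : V) 1)).Nonempty := by
  have : Nontrivial V := Module.nontrivial_of_finrank_eq_succ (R := ℝ) (n := d) Fact.out
  obtain ⟨e, he⟩ := NormedSpace.sphere_nonempty (E := V) (x := 0) (r := 1).mpr zero_le_one
  lift e to sphere (0 : V) 1 using he
  let k : Diff1 (EuclideanSpace ℝ (Fin d)) (sphere (0 : V) 1) :=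
    ⟨⟨boostS e, boostS (-e), ex_inv e, fun x => by simpa using ex_inv (-e) x⟩, ex_smooth e,
      ex_smooth (-e)⟩
  refine ⟨k, -e, e, (ne_neg_of_mem_unit_sphere ℝ e).symm, ?_, ex_sink e fun _ => rfl,
    ex_sink (-e) fun _ => rfl⟩
  refine lyap_nonwandering (φ := fun x : sphere (0 : V) 1 => -inner ℝ (e : V) (x : V))
    k.continuous (by fun_prop)
    (fun x hx => neg_lt_neg (ex_lt e x (fun h => hx (Or.inr h)) fun h => hx (Or.inl h))) ?_
  rintro c (rfl | rfl)
  · exact ex_fix' e
  · exact ex_fix c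

end Pool.Agent.Lib.MP_95f3db_an.NS
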