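import Pool.Agent.Lib.MP_95f3db_an.NS.HairyA

/-!
# The hairy ball theorem
-/

namespace Pool.Agent.Lib.MP_95f3db_an.NS

open scoped Manifold ContDiff Topology
open Set Filter Metric Function

theorem hairy {V : Type*} [NormedAddCommGroup V] [InnerProductSpace ℝ V]
    [FiniteDimensional ℝ V] (hodd : Odd (Module.finrank ℝ V)) (v : sphere (0 : V) 1 → V)
    (hv : Continuous v) (h1 : ∀ x : sphere (0 : V) 1, inner ℝ (x : V) (v x) = 0) :
    ∃ x, v x = 0 := by
  by_contra hne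
  push Not at hne
  have := TietzeExtension.of_tvs ℝ (E := V)
  obtain ⟨G, hG⟩ := ContinuousMap.exists_restrict_eq (Y := V)
    (isClosed_sphere (x := (0 : V)) (ε := 1)) ⟨v, hv⟩
  have hGv : ∀ x : sphere (0 : V) 1, G x = v x := fun x => DFunLike.congr_fun hG x
  obtain ⟨m, hm, hmG⟩ := (isCompact_sphere (0 : V) 1).exists_forall_le'
    (f := fun x => ‖G x‖) (a := 0) G.continuous.norm.continuousOn fun x hx =>
      norm_pos_iff.2 ((hGv ⟨x, hx⟩).trans_ne (hne _))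
  obtain ⟨G1, hG1, hd, -⟩ := G.continuous.exists_contDiff_approx 1 (ε := fun _ => m)
    continuous_const fun _ => hm
  have hG1 : ContDiff ℝ 1 G1 := hG1
  obtain ⟨u, hu⟩ : ∃ u : V → V, u = fun x => G1 x - (inner ℝ x (G1 x) : ℝ) • x := ⟨_, rfl⟩
  have cu : ContDiff ℝ 1 u := by
    rw [hu]
    exact hG1.sub ((contDiff_id.inner ℝ hG1).smul contDiff_id)
  have u0 : ∀ x : V, ‖x‖ = 1 → u x ≠ 0 := by
    intro x hx h
    have hx' : x ∈ sphere (0 : V) 1 := mem_sphere_zero_iff_norm.2 hx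
    have e1 : G1 x = (inner ℝ x (G1 x) : ℝ) • x := by
      rw [hu] at h
      exact sub_eq_zero.1 h
    have e2 : (inner ℝ x (G x) : ℝ) = 0 := by
      rw [hGv ⟨x, hx'⟩]
      exact h1 ⟨x, hx'⟩
    have e3 : (inner ℝ (G x - G1 x) (G x) : ℝ) = ‖G x‖ ^ 2 := by
      rw [inner_sub_left, e1, real_inner_smul_left, e2, mul_zero, sub_zero,
        real_inner_self_eq_norm_sq]
    have e4 := real_inner_le_norm (G x - G1 x) (G x)
    have e5 : ‖G x - G1 x‖ < m := by
      rw [← dist_eq_norm, dist_comm]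
      exact hd x
    have e6 : m ≤ ‖G x‖ := hmG x hx'
    nlinarith
  have u1 : ∀ x : V, ‖x‖ = 1 → (inner ℝ x (u x) : ℝ) = 0 := by
    intro x hx
    simp only [hu]
    rw [inner_sub_right, real_inner_smul_right, real_inner_self_eq_norm_sq, hx]
    ring
  have p1 : ∀ x : V, x ≠ 0 → ‖‖x‖⁻¹ • x‖ = 1 := fun x hx => norm_smul_inv_norm hx
  refine hairy_smooth hodd (fun x => (‖x‖ / ‖u (‖x‖⁻¹ • x)‖) • u (‖x‖⁻¹ • x))
    (fun x hx => ?_) (fun x => ?_) (fun x => ?_) fun t x ht => ?_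
  · have hn : ContDiffAt ℝ 1 (fun y : V => ‖y‖) x := contDiffAt_norm ℝ hx
    have hp : ContDiffAt ℝ 1 (fun y : V => ‖y‖⁻¹ • y) x :=
      (hn.inv (norm_ne_zero_iff.2 hx)).smul contDiffAt_id
    have hup : ContDiffAt ℝ 1 (fun y : V => u (‖y‖⁻¹ • y)) x := cu.contDiffAt.comp x hp
    exact (hn.div (hup.norm ℝ (u0 _ (p1 x hx))) (norm_ne_zero_iff.2 (u0 _ (p1 x hx)))).smul hup
  · rcases eq_or_ne x 0 with rfl | hx
    · exact inner_zero_left _
    · have e := u1 _ (p1 x hx)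
      rw [real_inner_smul_left, mul_eq_zero] at e
      rw [real_inner_smul_right, e.resolve_left (inv_ne_zero (norm_ne_zero_iff.2 hx)), mul_zero]
  · rcases eq_or_ne x 0 with rfl | hx
    · simp
    · rw [norm_smul, norm_div, norm_norm, norm_norm,
        div_mul_cancel₀ _ (norm_ne_zero_iff.2 (u0 _ (p1 x hx)))]
  · have e : ‖t • x‖⁻¹ • t • x = ‖x‖⁻¹ • x := by
      rw [norm_smul, Real.norm_of_nonneg ht.le, smul_smul, mul_inv, mul_comm t⁻¹, mul_assoc,
        inv_mul_cancel₀ ht.ne', mul_one]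
    rw [e, norm_smul, Real.norm_of_nonneg ht.le, smul_smul, mul_div_assoc]

end Pool.Agent.Lib.MP_95f3db_an.NS
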