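import Pool.Agent.Lib.MP_95f3db_an.NS.Base
import Pool.Agent.Lib.MP_95f3db_an.NS.HairyB

/-!
# Two vector fields on an even sphere are parallel somewhere
-/

namespace Pool.Agent.Lib.MP_95f3db_an.NS

open scoped Manifold ContDiff Topology
open Set Filter Metric Function

/-- A tangent vector of the sphere as a vector of the ambient space. -/
noncomputable def fieldJ {V : Type*} [NormedAddCommGroup V] [InnerProductSpace ℝ V] (d : ℕ)
    [Fact (Module.finrank ℝ V = d + 1)] (w : TM (EuclideanSpace ℝ (Fin d)) (sphere (0 : V) 1)) :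
    V :=
  mfderiv (𝓡 d) 𝓘(ℝ, V) ((↑) : sphere (0 : V) 1 → V) w.1 w.2

section

variable {V : Type*} [NormedAddCommGroup V] [InnerProductSpace ℝ V] {d : ℕ}
  [Fact (Module.finrank ℝ V = d + 1)]

theorem field_continuous : Continuous (fieldJ (V := V) d) :=
  (contMDiff_snd_tangentBundle_modelSpace (n := 0) V 𝓘(ℝ, V)).continuous.comp
    ((contMDiff_coe_sphere (m := 1) (n := d) (E := V)).continuous_tangentMap le_rfl)

theorem field_inner (w : TM (EuclideanSpace ℝ (Fin d)) (sphere (0 : V) 1)) :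
    inner ℝ (w.1 : V) (fieldJ d w) = 0 := by
  have h : fieldJ d w ∈ (ℝ ∙ (w.1 : V))ᗮ := by
    rw [← range_mfderiv_coe_sphere (n := d) w.1]
    exact ⟨w.2, rfl⟩
  exact Submodule.mem_orthogonal_singleton_iff_inner_right.1 h

theorem field_ne (w : TM (EuclideanSpace ℝ (Fin d)) (sphere (0 : V) 1)) (hw : w.2 ≠ 0) :
    fieldJ d w ≠ 0 := fun h =>
  hw (mfderiv_coe_sphere_injective (n := d) w.1 (h.trans (map_zero _).symm))

theorem field_par (p q : TM (EuclideanSpace ℝ (Fin d)) (sphere (0 : V) 1)) (h : p.1 = q.1) (c : ℝ)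
    (e : fieldJ d p = c • fieldJ d q) : p = ⟨q.1, c • q.2⟩ := by
  obtain ⟨a, u⟩ := p
  obtain ⟨b, u'⟩ := q
  obtain rfl : a = b := h
  have : u = c • u' :=
    mfderiv_coe_sphere_injective (n := d) a (e.trans (map_smul _ c u').symm)
  rw [this]

end

theorem field_glue {M V : Type*} [TopologicalSpace M] [NormedAddCommGroup V] [NormedSpace ℝ V]
    {U : Set M} (hU : IsOpen U) {g : M → ℝ} (hg : Continuous g) (hgU : ∀ x, 0 ≤ g x → x ∈ U)
    {X : M → V} (hX : ContinuousOn X U) : Continuous fun x => max 0 (g x) • X x := by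
  refine ContinuousOn.continuous_of_tsupport_subset
    ((continuous_const.max hg).continuousOn.smul hX) hU ?_
  refine (closure_minimal (t := {x | 0 ≤ g x}) (fun x hx => ?_)
    (isClosed_le continuous_const hg)).trans hgU
  by_contra h
  have h' : g x ≤ 0 := (not_le.1 h).le
  exact hx (by simp [max_eq_left h'])

theorem noField_sphere {V : Type*} [NormedAddCommGroup V] [InnerProductSpace ℝ V] {d : ℕ}
    [Fact (Module.finrank ℝ V = d + 1)] (hd : Even d) :
    NoField (EuclideanSpace ℝ (Fin d)) (sphere (0 : V) 1) := by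
  intro U₁ U₂ X Y h₁ h₂ hcov hX hY hX' hY'
  have : FiniteDimensional ℝ V := FiniteDimensional.of_fact_finrank_eq_succ d
  have hodd : Odd (Module.finrank ℝ V) := by
    rw [(Fact.out : Module.finrank ℝ V = d + 1)]
    exact hd.add_one
  obtain ⟨ψ, h0, h1, -⟩ := exists_continuous_zero_one_of_isClosed h₁.isClosed_compl
    h₂.isClosed_compl (by
      rw [Set.disjoint_iff_inter_eq_empty, ← compl_union, hcov, compl_univ])
  have m₁ : ∀ x, 0 ≤ ψ x - 1 / 3 → x ∈ U₁ := fun x hx => by
    by_contra h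
    have : ψ x = 0 := h0 h
    linarith
  have m₂ : ∀ x, 0 ≤ 2 / 3 - ψ x → x ∈ U₂ := fun x hx => by
    by_contra h
    have : ψ x = 1 := h1 h
    linarith
  have o₁ : ∀ x : sphere (0 : V) 1,
      inner ℝ (x : V) (max 0 (ψ x - 1 / 3) • fieldJ d (X x)) = 0 := fun x => by
    rcases le_total 0 (ψ x - 1 / 3) with h | h
    · have := field_inner (X x)
      rw [(hX' x (m₁ x h)).1] at this
      rw [real_inner_smul_right, this, mul_zero]
    · rw [max_eq_left h, zero_smul, inner_zero_right]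
  have o₂ : ∀ x : sphere (0 : V) 1,
      inner ℝ (x : V) (max 0 (2 / 3 - ψ x) • fieldJ d (Y x)) = 0 := fun x => by
    rcases le_total 0 (2 / 3 - ψ x) with h | h
    · have := field_inner (Y x)
      rw [(hY' x (m₂ x h)).1] at this
      rw [real_inner_smul_right, this, mul_zero]
    · rw [max_eq_left h, zero_smul, inner_zero_right]
  obtain ⟨x, hx⟩ := hairy hodd
    (fun x => max 0 (ψ x - 1 / 3) • fieldJ d (X x) + max 0 (2 / 3 - ψ x) • fieldJ d (Y x))
    ((field_glue h₁ (ψ.continuous.sub continuous_const) m₁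
        (field_continuous.comp_continuousOn hX)).add
      (field_glue h₂ (continuous_const.sub ψ.continuous) m₂
        (field_continuous.comp_continuousOn hY)))
    (fun x => by rw [inner_add_right, o₁, o₂, add_zero])
  have a₁ : 0 < ψ x - 1 / 3 := by
    by_contra h
    have h' : ψ x - 1 / 3 ≤ 0 := not_lt.1 h
    have hb : 0 < 2 / 3 - ψ x := by linarith
    rw [max_eq_left h', max_eq_right hb.le, zero_smul, zero_add] at hx
    exact field_ne _ (hY' x (m₂ x hb.le)).2 ((smul_eq_zero.1 hx).resolve_left hb.ne')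
  have a₂ : 0 < 2 / 3 - ψ x := by
    by_contra h
    have h' : 2 / 3 - ψ x ≤ 0 := not_lt.1 h
    rw [max_eq_left h', max_eq_right a₁.le, zero_smul, add_zero] at hx
    exact field_ne _ (hX' x (m₁ x a₁.le)).2 ((smul_eq_zero.1 hx).resolve_left a₁.ne')
  rw [max_eq_right a₁.le, max_eq_right a₂.le] at hx
  refine ⟨x, ⟨m₁ x a₁.le, m₂ x a₂.le⟩, -((ψ x - 1 / 3)⁻¹ * (2 / 3 - ψ x)),
    field_par _ _ ((hX' x (m₁ x a₁.le)).1.trans (hY' x (m₂ x a₂.le)).1.symm) _ ?_⟩
  have e := congrArg (fun z => (ψ x - 1 / 3)⁻¹ • z) (eq_neg_of_add_eq_zero_left hx)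
  simp only [smul_smul, inv_mul_cancel₀ a₁.ne', one_smul, smul_neg] at e
  rw [e, neg_smul]

end Pool.Agent.Lib.MP_95f3db_an.NS
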