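import Pool.Agent.Lib.MP_95f3db_an.NS.Base

/-!
# North-south diffeomorphisms and absorbing frames
-/

namespace Pool.Agent.Lib.MP_95f3db_an.NS

open scoped Manifold ContDiff Topology
open Set Filter Metric Function

variable {E : Type*} [NormedAddCommGroup E] [NormedSpace ℝ E] [FiniteDimensional ℝ E]
  {M : Type*} [TopologicalSpace M] [ChartedSpace E M] [IsManifold 𝓘(ℝ, E) 1 M] [CompactSpace M]
  [T2Space M] {P : Type*} [NormedAddCommGroup P] [NormedSpace ℝ P] [FiniteDimensional ℝ P]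

theorem mem_of_sinks {f : Diff1 E M} {BS BN : Set M} {S N : M} (hS : Sink f BS S)
    (hN : Sink f⁻¹ BN N) (hne : N ≠ S) (hΩ : nonwandering f = {N, S})
    {g : ∀ x : M, LinearMap.BilinForm ℝ (TangentSpace 𝓘(ℝ, E) x)} (hg : IsRiemannian g) :
    f ∈ axiomANoCycles E M := by
  classical
  have hfN : f N = N := by
    conv_lhs => rw [← hN.fix]
    simp
  have hfS : f⁻¹ S = S := by
    conv_lhs => rw [← hS.fix]
    simp
  have hwN : ∀ x ∈ BN, x ∈ nonwandering f → x = N := fun x hx hx' =>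
    hN.wand x hx (by rwa [nonwandering_inv])
  have h0 : ∀ k : Diff1 E M, Contracted g k ∅ fun _ => ⊥ := fun k =>
    ⟨fun w hw => hw.elim, 1, 1 / 2, one_pos, by norm_num, by norm_num, fun w hw => hw.elim⟩
  refine ⟨⟨⟨(isClosed_nonwandering _).isCompact, ?_, g, hg,
    fun x => if x = S then ⊤ else if x = N then ⊥ else ⊥,
    fun x => if x = N then ⊤ else if x = S then ⊥ else ⊥, ?_, ?_, ?_⟩, ?_⟩, ?_⟩
  · rw [hΩ, image_pair, hS.fix, hfN]
  · rw [hΩ]
    rintro x (rfl | rfl)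
    · simp only [if_neg hne, if_true]
      exact isCompl_bot_top
    · simp only [if_neg hne.symm, if_true]
      exact isCompl_top_bot
  · have := contracted_surgery (f := f) (f' := f) (Ω' := ∅) (mapsTo_empty _ _)
      (fun x hx => hx.elim) (h0 f) Subset.rfl (notMem_empty S) (notMem_empty N) hne.symm hS.fix hfN
      (hS.hyp g hg)
    rwa [empty_union, pair_comm, ← hΩ] at this
  · have := contracted_surgery (f := f⁻¹) (f' := f⁻¹) (Ω' := ∅) (mapsTo_empty _ _)
      (fun x hx => hx.elim) (h0 f⁻¹) Subset.rfl (notMem_empty N) (notMem_empty S) hne hN.fix hfS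
      (hN.hyp g hg)
    rwa [empty_union, ← hΩ] at this
  · rw [hΩ]
    rintro x (rfl | rfl)
    · exact subset_closure ⟨1, one_pos, hfN⟩
    · exact subset_closure ⟨1, one_pos, hS.fix⟩
  · rintro ⟨m, Λ, hm, hb, hΛ, hc⟩
    have c1 : S ∉ Λ 0 := fun h' => by
      obtain ⟨z, ⟨hz1, -⟩, hz2⟩ := hc 0 hm
      rw [basic_eq_singleton (hb 0 (Nat.zero_le _)) h' hS.int hS.fix hS.wand, stableSet,
        nhdsSet_singleton] at hz1
      exact hz2 (hS.back z hz1 ▸ fixed_mem_nonwandering hS.fix)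
    have c2 : N ∉ Λ 0 := fun h' => by
      obtain ⟨k, rfl⟩ : ∃ k, m = k + 1 := ⟨m - 1, by omega⟩
      rw [← hΛ] at h'
      obtain ⟨z, ⟨-, hz1⟩, hz2⟩ := hc k (by omega)
      rw [basic_eq_singleton (hb (k + 1) le_rfl) h' hN.int hfN hwN, stableSet,
        nhdsSet_singleton] at hz1
      exact hz2 (hN.back z (by simpa using hz1) ▸ fixed_mem_nonwandering hfN)
    obtain ⟨b1, -, -, -, x, hx, -⟩ := hb 0 (Nat.zero_le _)
    have := b1 hx
    rw [hΩ] at this
    rcases this with rfl | rfl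
    · exact c2 hx
    · exact c1 hx

theorem Absorb.eventually {𝓕 : Frame E M P} {m : ℕ} {f : Diff1 E M} (hf : Good 𝓕 f)
    (h : Absorb 𝓕 m f) : ∀ᶠ g in 𝓝 f, Absorb 𝓕 m g := by
  have hN : IsOpen (𝓕.φN.symm '' ball 0 𝓕.RN) :=
    𝓕.φN.symm.isOpen_image_of_subset_source isOpen_ball fun y hy =>
      (hf.N.dom (ball_subset_closedBall hy)).1
  have hS : IsOpen (𝓕.φS.symm '' ball 0 𝓕.RS) :=
    𝓕.φS.symm.isOpen_image_of_subset_source isOpen_ball fun y hy =>
      (hf.S.dom (ball_subset_closedBall hy)).1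
  have h1 := eventually_mapsTo (f := f ^ m) hN.isClosed_compl.isCompact hS fun x hx => h x hx
  exact ((continuous_pow m).tendsto f).eventually h1

theorem Absorb.northSouth {𝓕 : Frame E M P} {m : ℕ} {f : Diff1 E M} (hf : Good 𝓕 f)
    (h : Absorb 𝓕 m f) : f ∈ northSouth E M := by
  obtain ⟨s, hs, es⟩ := hf.S.exists_fix 𝓕.cS
  obtain ⟨n, hn, en⟩ := hf.N.exists_fix 𝓕.cN
  have hS := hf.S.sink 𝓕.cS hs es
  have hN := hf.N.sink 𝓕.cN hn en
  obtain ⟨⟨⟨-, hinv, g, hg, -⟩, -⟩, -⟩ := hf.mem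
  have hfN : f (𝓕.φN.symm n) = 𝓕.φN.symm n := by
    conv_lhs => rw [← hN.fix]
    simp
  have key : ∀ (k : Diff1 E M) (B : Set M) (S : M), Sink k B S → IsSink k S := fun k B S hk => by
    obtain ⟨C, l, h1, h2, h3, h4⟩ := hk.hyp g hg
    exact ⟨hk.fix, g, hg, fun w _ => Iff.rfl, C, l, h1, h2, h3, fun w hw _ => h4 w hw⟩
  refine ⟨𝓕.φN.symm n, 𝓕.φS.symm s, fun e => Set.disjoint_left.mp 𝓕.disj hS.mem (e ▸ hN.mem), ?_,
    key _ _ _ hS, key _ _ _ hN⟩
  ext x
  constructor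
  · intro hx
    by_cases h1 : x ∈ 𝓕.φN.symm '' closedBall 0 𝓕.RN
    · exact Or.inl (hN.wand x h1 (by rwa [nonwandering_inv]))
    have h2 := h x fun h' => h1 (image_mono ball_subset_closedBall h')
    have h3 := zpow_mem hinv m hx
    rw [zpow_natCast] at h3
    have h4 := hS.wand _ (image_mono ball_subset_closedBall h2) h3
    have h5 := zpow_fix hS.fix m
    rw [zpow_natCast] at h5
    exact Or.inr (diff_inj (f ^ m) (h4.trans h5.symm))
  · rintro (rfl | rfl)
    · exact fixed_mem_nonwandering hfN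
    · exact fixed_mem_nonwandering hS.fix

end Pool.Agent.Lib.MP_95f3db_an.NS
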