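import Pool.Agent.Lib.MP_95f3db_an.NS.Lyap
import Pool.Agent.Lib.MP_95f3db_an.NS.Mem

/-!
# A north-south diffeomorphism has an absorbing frame
-/

namespace Pool.Agent.Lib.MP_95f3db_an.NS

open scoped Manifold ContDiff Topology
open Set Filter Metric Function

theorem frame_cluster {X : Type*} [TopologicalSpace X] {f : X → X} {x y : X}
    (h : MapClusterPt y atTop fun n : ℕ => f^[n] x) : y ∈ nonwandering f := by
  intro U hU
  have h1 := mapClusterPt_iff_frequently.1 h U hU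
  obtain ⟨n, hn⟩ := h1.exists
  obtain ⟨k, hk, hk'⟩ := frequently_atTop.1 h1 (n + 1)
  refine ⟨k - n, by omega, f^[k] x, ⟨_, hn, ?_⟩, hk'⟩
  rw [← iterate_add_apply, Nat.sub_add_cancel (by omega)]

theorem frame_small {X P : Type*} [TopologicalSpace X] [NormedAddCommGroup P]
    {φ : OpenPartialHomeomorph X P} (h0 : (0 : P) ∈ φ.target) {U : Set X}
    (hU : U ∈ 𝓝 (φ.symm 0)) : ∀ᶠ R in 𝓝[>] (0 : ℝ), φ.symm '' closedBall 0 R ⊆ U := by
  obtain ⟨ε, hε, h⟩ := Metric.nhds_basis_closedBall.mem_iff.1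
    ((φ.continuousAt_symm h0).preimage_mem_nhds hU)
  filter_upwards [Ioo_mem_nhdsGT hε] with R hR
  rintro _ ⟨y, hy, rfl⟩
  exact h (closedBall_subset_closedBall hR.2.le hy)

variable {E : Type*} [NormedAddCommGroup E] [InnerProductSpace ℝ E] [FiniteDimensional ℝ E]
  {M : Type*} [TopologicalSpace M] [ChartedSpace E M] [IsManifold 𝓘(ℝ, E) 1 M] [CompactSpace M]
  [T2Space M]

theorem exists_frame {f : Diff1 E M} (hf : f ∈ northSouth E M) :
    ∃ (𝓕 : Frame E M E) (m : ℕ), Good 𝓕 f ∧ Absorb 𝓕 m f := by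
  obtain ⟨N, S, hne, hΩ, hS, hN⟩ := hf
  obtain ⟨φS, cS, zS, eS, hcS⟩ := hS.exists_chart
  obtain ⟨φN, cN, zN, eN, hcN⟩ := hN.exists_chart
  obtain ⟨U, V, hU, hV, hUV⟩ := t2_separation_nhds hne.symm
  obtain ⟨RS, kS, sS⟩ := (hcS.and (frame_small zS (eS.symm ▸ hU))).exists
  obtain ⟨RN, kN, sN⟩ := (hcN.and (frame_small zN (eN.symm ▸ hV))).exists
  have fS : rep f φS φS 0 = 0 := by
    rw [rep, eS, hS.1, ← eS, φS.right_inv zS]
  have fN : rep f.symm φN φN 0 = 0 := by
    rw [rep, eN, hN.1, ← eN, φN.right_inv zN]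
  have aS := kS.sink cS (mem_closedBall_self kS.pos.le) fS
  have aN : Sink f⁻¹ _ _ := kN.sink cN (mem_closedBall_self kN.pos.le) fN
  rw [eS] at aS
  rw [eN] at aN
  obtain ⟨g, hg, -⟩ := hS.2
  have oS : IsOpen (φS.symm '' ball 0 RS) :=
    φS.symm.isOpen_image_of_subset_source isOpen_ball fun y hy =>
      (kS.dom (ball_subset_closedBall hy)).1
  have oN : IsOpen (φN.symm '' ball 0 RN) :=
    φN.symm.isOpen_image_of_subset_source isOpen_ball fun y hy =>
      (kN.dom (ball_subset_closedBall hy)).1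
  have mS : MapsTo f (φS.symm '' ball 0 RS) (φS.symm '' ball 0 RS) := by
    rintro _ ⟨y, hy, rfl⟩
    exact ⟨_, kS.maps y (ball_subset_closedBall hy),
      Dom.symm_rep (kS.dom (ball_subset_closedBall hy))⟩
  obtain ⟨m, hm⟩ := oN.isClosed_compl.isCompact.elim_directed_cover
    (fun n : ℕ => f^[n] ⁻¹' (φS.symm '' ball 0 RS))
    (fun n => oS.preimage (f.continuous.iterate n))
    (fun x hx => by
      by_contra hc
      refine hx ⟨0, mem_ball_self kN.pos, eN.trans (aN.back x ?_).symm⟩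
      rw [inv_inv]
      refine tendsto_nhds_of_unique_mapClusterPt fun y hy => ?_
      have h1 := frame_cluster hy
      rw [hΩ] at h1
      refine h1.resolve_right fun h2 => hc ?_
      obtain ⟨n, hn⟩ := (mapClusterPt_iff_frequently.1 hy _
        (oS.mem_nhds ⟨0, mem_ball_self kS.pos, eS.trans (mem_singleton_iff.1 h2).symm⟩)).exists
      exact mem_iUnion.2 ⟨n, hn⟩)
    (Monotone.directed_le (monotone_nat_of_le_succ fun n x hx => by
      rw [mem_preimage, iterate_succ_apply']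
      exact mS hx))
  refine ⟨⟨φS, φN, RS, RN, cS, cN, hUV.mono sS sN⟩, m, ⟨mem_of_sinks aS aN hne hΩ hg, kS, kN⟩,
    fun x hx => ?_⟩
  rw [diff_coe_pow]
  exact hm hx

end Pool.Agent.Lib.MP_95f3db_an.NS
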