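import Pool.Agent.Lib.MP_95f3db_an.NS.Poly

/-!
# The hairy ball theorem for homogeneous C1 fields (volume argument)
-/

namespace Pool.Agent.Lib.MP_95f3db_an.NS

open scoped Manifold ContDiff Topology
open Set Filter Metric Function MeasureTheory

theorem hairy_smooth {V : Type*} [NormedAddCommGroup V] [InnerProductSpace ℝ V]
    [FiniteDimensional ℝ V] (hodd : Odd (Module.finrank ℝ V)) (w : V → V)
    (hw : ∀ x ≠ 0, ContDiffAt ℝ 1 w x) (h1 : ∀ x, inner ℝ x (w x) = 0) (h2 : ∀ x, ‖w x‖ = ‖x‖)
    (h3 : ∀ (t : ℝ) x, 0 < t → w (t • x) = t • w x) : False := by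
  classical
  borelize V
  have hnt : Nontrivial V := Module.nontrivial_of_finrank_pos (R := ℝ) hodd.pos
  set μ : Measure V := Measure.addHaar
  obtain ⟨K, hK1, hK2, hK3⟩ := homog_lip w hw h2 h3
  set D : V → V →L[ℝ] V := fderiv ℝ w with hD
  set U : Set V := ball 0 1 \ {0} with hU
  have hUo : IsOpen U := isOpen_ball.sdiff isClosed_singleton
  have hDc : ContinuousOn D U := fun x hx =>
    ((hw x hx.2).continuousAt_fderiv one_ne_zero).continuousWithinAt
  obtain ⟨δ, hδ, hδp⟩ : ∃ δ > 0, ∀ N : V →L[ℝ] V, ‖N‖ < δ → 0 < (1 + N).det := by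
    have hc : Continuous fun N : V →L[ℝ] V => (1 + N).det :=
      ContinuousLinearMap.continuous_det.comp (by fun_prop)
    have : ∀ᶠ N in 𝓝 (0 : V →L[ℝ] V), 0 < (1 + N).det := by
      apply hc.continuousAt.eventually (lt_mem_nhds _)
      simp [ContinuousLinearMap.det]
    obtain ⟨δ, hδ, h⟩ := Metric.eventually_nhds_iff.mp this
    exact ⟨δ, hδ, fun N hN => h (by simpa using hN)⟩
  set s0 : ℝ := min δ (1 / 2) / (K + 1) with hs0
  have hs0p : 0 < s0 := by positivity
  have hs0K : s0 * K < min δ (1 / 2) := by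
    have : s0 * (K + 1) = min δ (1 / 2) := by rw [hs0]; field_simp
    nlinarith
  set n := Module.finrank ℝ V with hn
  have hvol : ∀ t, 0 ≤ t → t ≤ s0 →
      ∫ x in U, (1 + t • D x).det ∂μ = √(1 + t ^ 2) ^ n * μ.real (ball 0 1) := by
    intro t ht0 ht
    have htK : t * K < min δ (1 / 2) := lt_of_le_of_lt (by gcongr) hs0K
    set g : V → V := fun x => x + t • w x with hg
    have happ : ApproximatesLinearOn g ((ContinuousLinearEquiv.refl ℝ V : V ≃L[ℝ] V) : V →L[ℝ] V)
        univ (1 / 2 : NNReal) := by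
      intro x _ y _
      have : g x - g y - ((ContinuousLinearEquiv.refl ℝ V : V ≃L[ℝ] V) : V →L[ℝ] V) (x - y)
          = t • (w x - w y) := by simp [hg, smul_sub]; abel
      rw [this, norm_smul, Real.norm_of_nonneg ht0]
      have h4 : t * K ≤ 1 / 2 := (htK.trans_le (min_le_right _ _)).le
      calc t * ‖w x - w y‖ ≤ t * (K * ‖x - y‖) := by gcongr; exact hK3 x y
        _ = (t * K) * ‖x - y‖ := by ring
        _ ≤ (1 / 2) * ‖x - y‖ := by gcongr
        _ = _ := by simp
    have hc : Subsingleton V ∨ (1 / 2 : NNReal) <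
        ‖(((ContinuousLinearEquiv.refl ℝ V).symm : V ≃L[ℝ] V) : V →L[ℝ] V)‖₊⁻¹ := by
      right
      have : ‖(((ContinuousLinearEquiv.refl ℝ V).symm : V ≃L[ℝ] V) : V →L[ℝ] V)‖₊ = 1 := by
        simp
      rw [this]; norm_num
    have hinj : Function.Injective g := by
      rw [← injOn_univ]; exact happ.injOn hc
    have hsurj : Function.Surjective g := happ.surjective hc
    have hρ : 0 < √(1 + t ^ 2) := Real.sqrt_pos.mpr (by positivity)
    have hnorm : ∀ x, ‖g x‖ = √(1 + t ^ 2) * ‖x‖ := fun x => by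
      have e : ‖g x‖ ^ 2 = (1 + t ^ 2) * ‖x‖ ^ 2 := by
        simp only [hg]
        rw [norm_add_sq_real, inner_smul_right, h1, norm_smul, h2, mul_pow, Real.norm_eq_abs,
          sq_abs]
        ring
      rw [← Real.sqrt_sq (norm_nonneg (g x)), e, Real.sqrt_mul (by positivity),
        Real.sqrt_sq (norm_nonneg x)]
    have himg : g '' U = ball 0 √(1 + t ^ 2) \ {0} := by
      ext y
      obtain ⟨x, rfl⟩ := hsurj y
      rw [hinj.mem_set_image]
      simp only [hU, Set.mem_sdiff, mem_ball_zero_iff, mem_singleton_iff, ← norm_eq_zero (E := V),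
        hnorm, mul_eq_zero, hρ.ne', false_or, mul_lt_iff_lt_one_right hρ]
    have hgd : ∀ x ∈ U, HasFDerivWithinAt g (1 + t • D x) U x := fun x hx =>
      ((hasFDerivAt_id x).add
        (((hw x hx.2).differentiableAt one_ne_zero).hasFDerivAt.const_smul t)).hasFDerivWithinAt
    have := integral_image_eq_integral_abs_det_fderiv_smul μ hUo.measurableSet hgd
      hinj.injOn (fun _ => (1 : ℝ))
    rw [himg] at this
    simp only [integral_const, smul_eq_mul, mul_one, MeasurableSet.univ, measureReal_restrict_apply,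
      univ_inter] at this
    have e : μ.real (ball 0 √(1 + t ^ 2) \ {0}) = √(1 + t ^ 2) ^ n * μ.real (ball 0 1) := by
      rw [measureReal_def, measure_sdiff_null (measure_singleton _),
        Measure.addHaar_ball_of_pos μ _ hρ, ENNReal.toReal_mul,
        ENNReal.toReal_ofReal (by positivity), measureReal_def]
    rw [← e, this]
    refine setIntegral_congr_fun hUo.measurableSet fun x hx => ?_
    refine (abs_of_pos (hδp _ ?_)).symm
    rw [norm_smul, Real.norm_of_nonneg ht0]
    refine lt_of_le_of_lt ?_ (htK.trans_le (min_le_left _ _))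
    gcongr
    exact hK2 x hx.2
  set s : Fin (n + 1) → ℝ := fun j => s0 / ((j : ℕ) + 1) with hs
  have hsinj : Function.Injective s := by
    intro i j hij
    simp only [hs] at hij
    rw [div_eq_div_iff (by positivity) (by positivity)] at hij
    have := mul_left_cancel₀ hs0p.ne' hij
    have : (j : ℕ) = i := by exact_mod_cast add_right_cancel this
    exact Fin.ext this.symm
  obtain ⟨L, hL⟩ := det_lagrange s hsinj
  have hint : ∀ t : ℝ, IntegrableOn (fun x => (1 + t • D x).det) U μ := by
    intro t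
    have hc : Continuous fun N : V →L[ℝ] V => (1 + t • N).det :=
      ContinuousLinearMap.continuous_det.comp (by fun_prop)
    have : ProperSpace (V →L[ℝ] V) := FiniteDimensional.proper ℝ _
    obtain ⟨C, hC⟩ := (isCompact_closedBall (0 : V →L[ℝ] V) K).exists_bound_of_continuousOn
      hc.continuousOn
    refine ⟨(hc.comp_continuousOn hDc).aestronglyMeasurable hUo.measurableSet, ?_⟩
    refine HasFiniteIntegral.restrict_of_bounded C
      ((measure_mono sdiff_subset).trans_lt measure_ball_lt_top) ?_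
    filter_upwards [ae_restrict_mem hUo.measurableSet] with x hx
    exact hC _ (mem_closedBall_zero_iff.mpr (hK2 x hx.2))
  have hpos : 0 < μ.real (ball (0 : V) 1) :=
    ENNReal.toReal_pos (measure_ball_pos μ _ one_pos).ne' measure_ball_lt_top.ne
  refine poly_contra hodd (∑ j, L j * Polynomial.C (√(1 + s j ^ 2) ^ n)) hs0p fun t ht => ?_
  apply mul_right_cancel₀ hpos.ne'
  rw [← hvol t ht.1 ht.2, Polynomial.eval_finsetSum, Finset.sum_mul]
  simp only [hL _ t]
  rw [integral_finsetSum _ (fun j _ => (hint (s j)).const_mul _)]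
  refine Finset.sum_congr rfl fun j _ => ?_
  rw [integral_const_mul, hvol (s j) (by positivity) (div_le_self hs0p.le (by simp)),
    Polynomial.eval_mul, Polynomial.eval_C, mul_assoc]

end Pool.Agent.Lib.MP_95f3db_an.NS
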