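import Pool.Agent.Lib.MP_95f3db_an.NS.Base

/-!
# A chart in which a hyperbolic sink is a contraction
-/

namespace Pool.Agent.Lib.MP_95f3db_an.NS

open scoped Manifold ContDiff Topology
open Set Filter Metric Function

theorem lyap_norm {P : Type*} [NormedAddCommGroup P] [InnerProductSpace ℝ P]
    [FiniteDimensional ℝ P] (A : P →L[ℝ] P) (m : ℕ) :
    ∃ L : P ≃L[ℝ] P, ∀ x, ‖L x‖ ^ 2 = ∑ i ∈ Finset.range (m + 1), ‖A^[i] x‖ ^ 2 := by
  let T : P →ₗ[ℝ] PiLp 2 (fun _ : Fin (m + 1) => P) :=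
    (WithLp.linearEquiv 2 ℝ (Fin (m + 1) → P)).symm.toLinearMap.comp
      (LinearMap.pi fun i => (A : P →ₗ[ℝ] P) ^ (i : ℕ))
  have h1 : ∀ x i, T x i = A^[i] x := fun x i => Module.End.pow_apply (A : P →ₗ[ℝ] P) i x
  have hT : Injective T := fun x y e => by
    have h2 := h1 x 0
    rw [e, h1] at h2
    exact h2.symm
  let e : LinearMap.range T ≃ₗᵢ[ℝ] P := (stdOrthonormalBasis ℝ (LinearMap.range T)).equiv
    (stdOrthonormalBasis ℝ P) (finCongr (LinearMap.finrank_range_of_inj hT))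
  refine ⟨((LinearEquiv.ofInjective T hT).trans e.toLinearEquiv).toContinuousLinearEquiv,
    fun x => ?_⟩
  have h2 : ‖((LinearEquiv.ofInjective T hT).trans e.toLinearEquiv).toContinuousLinearEquiv x‖ =
      ‖T x‖ := e.norm_map _
  rw [h2, PiLp.norm_sq_eq_of_L2, Finset.sum_range]
  simp only [h1]

theorem exists_lyap {P : Type*} [NormedAddCommGroup P] [InnerProductSpace ℝ P]
    [FiniteDimensional ℝ P] (A : P →L[ℝ] P) {C l : ℝ} (hl0 : 0 < l) (hl : l < 1)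
    (h : ∀ (n : ℕ) v, ‖A^[n] v‖ ≤ C * l ^ n * ‖v‖) :
    ∃ L : P ≃L[ℝ] P, ‖(L : P →L[ℝ] P).comp (A.comp (L.symm : P →L[ℝ] P))‖ < 1 := by
  have h1 := ((tendsto_pow_atTop_nhds_zero_of_lt_one hl0.le hl).comp
    (tendsto_add_atTop_nat 1)).const_mul C
  rw [mul_zero] at h1
  obtain ⟨m, hm⟩ := (h1.eventually (gt_mem_nhds (show (0 : ℝ) < 1 / 2 by norm_num))).exists
  obtain ⟨L, hL⟩ := lyap_norm A m
  set K := ‖(L : P →L[ℝ] P)‖ + 1 with hK
  have K1 : 1 ≤ K := le_add_of_nonneg_left (norm_nonneg _)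
  have h2 : ∀ x, ‖L (A x)‖ ^ 2 ≤ (1 - 3 / 4 / K ^ 2) * ‖L x‖ ^ 2 := fun x => by
    have a1 := hL (A x)
    have a2 := Finset.sum_range_succ' (fun i => ‖A^[i] x‖ ^ 2) (m + 1)
    rw [Finset.sum_range_succ, ← hL] at a2
    simp only [iterate_succ_apply, iterate_zero_apply] at a2
    have a3 : ‖A^[m] (A x)‖ ≤ 1 / 2 * ‖x‖ :=
      (h (m + 1) x).trans (mul_le_mul_of_nonneg_right (le_of_lt hm) (norm_nonneg _))
    have a4 : ‖L x‖ ≤ K * ‖x‖ := (L : P →L[ℝ] P).le_of_opNorm_le (by linarith) x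
    have a5 := pow_le_pow_left₀ (norm_nonneg _) a3 2
    have a6 := pow_le_pow_left₀ (norm_nonneg _) a4 2
    have a7 : 3 / 4 / K ^ 2 * ‖L x‖ ^ 2 ≤ 3 / 4 * ‖x‖ ^ 2 := by
      rw [div_mul_eq_mul_div, div_le_iff₀ (by positivity)]
      nlinarith
    nlinarith
  have h3 : 0 < 3 / 4 / K ^ 2 := by positivity
  refine ⟨L, lt_of_le_of_lt (ContinuousLinearMap.opNorm_le_bound _
    (Real.sqrt_nonneg (1 - 3 / 4 / K ^ 2)) fun y => ?_) ?_⟩
  · have a1 := Real.le_sqrt_of_sq_le (h2 (L.symm y))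
    rwa [Real.sqrt_mul' _ (sq_nonneg _), Real.sqrt_sq (norm_nonneg _), L.apply_symm_apply] at a1
  · rw [Real.sqrt_lt' one_pos]
    linarith

variable {E : Type*} [NormedAddCommGroup E] [InnerProductSpace ℝ E] [FiniteDimensional ℝ E]
  {M : Type*} [TopologicalSpace M] [ChartedSpace E M] [IsManifold 𝓘(ℝ, E) 1 M]

theorem IsSink.exists_chart {f : Diff1 E M} {S : M} (h : IsSink f S) :
    ∃ φ : OpenPartialHomeomorph M E, IsChart E φ ∧ 0 ∈ φ.target ∧ φ.symm 0 = S ∧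
      ∀ᶠ R in 𝓝[>] (0 : ℝ), Contr f φ R := by
  obtain ⟨hS, g, hg, -, C, l, hC, hl0, hl, hb⟩ := h
  have hψ := isChart_chartAt (E := E) S
  set ψ := chartAt E S with hψd
  have s1 : S ∈ ψ.source := mem_chart_source _ _
  have s2 : ψ.symm (ψ S) = S := ψ.left_inv s1
  have s3 : ψ S ∈ Dom f ψ ψ := ⟨ψ.map_source s1, by rwa [s2, hS]⟩
  have s4 : rep f ψ ψ (ψ S) = ψ S := by rw [rep, s2, hS]
  set A := fderiv ℝ (rep f ψ ψ) (ψ S) with hA
  have e1 : ∀ (n : ℕ) v, (tang f)^[n] (up E ψ (ψ S, v)) = up E ψ (ψ S, A^[n] v) := fun n v => by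
    induction n with
    | zero => rfl
    | succ n ih => rw [iterate_succ_apply', ih, tang_up hψ hψ s3, s4, iterate_succ_apply']
  obtain ⟨a, b, ha, hb0, hab⟩ := len_up_bounds hψ s3.1 hg
  obtain ⟨L, hL⟩ := exists_lyap A (C := C * b / a) hl0 hl fun n v => by
    have a1 := hb (up E ψ (ψ S, v)) s2 trivial n
    rw [e1] at a1
    have a2 : a * ‖A^[n] v‖ ≤ C * l ^ n * (b * ‖v‖) :=
      ((hab _).1.trans a1).trans (by gcongr; exact (hab v).2)
    rw [← le_div_iff₀' ha] at a2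
    exact a2.trans_eq (by ring)
  have hφ := hψ.aff (ψ S) L
  set φ := affChart ψ (ψ S) L with hφd
  have t1 : (0 : E) ∈ φ.target := by
    rw [hφd, mem_affChart_target, map_zero, zero_add]; exact s3.1
  have t2 : φ.symm 0 = S := by rw [hφd, affChart_symm_apply, map_zero, zero_add, s2]
  have t3 : (0 : E) ∈ Dom f φ φ := ⟨t1, by rwa [t2, hS]⟩
  have t4 : rep f φ φ 0 = 0 := by rw [rep, t2, hS, hφd, affChart_apply, sub_self, map_zero]
  have t5 : rep f φ φ = fun y => L (rep f ψ ψ (L.symm y + ψ S) - ψ S) := by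
    funext y
    simp only [rep, hφd, affChart_apply, affChart_symm_apply]
  have t6 : ‖fderiv ℝ (rep f φ φ) 0‖ < 1 := by
    have a1 : HasFDerivAt (rep f ψ ψ) A (L.symm 0 + ψ S) := by
      rw [map_zero, zero_add]; exact hasFDerivAt_rep hψ hψ s3
    have a2 := L.hasFDerivAt.comp 0
      ((a1.comp 0 (L.symm.hasFDerivAt.add_const (ψ S))).sub_const (ψ S))
    rw [t5]
    exact a2.fderiv.symm ▸ hL
  obtain ⟨θ, u1, u2⟩ := exists_between t6
  obtain ⟨ε, hε, u3⟩ := Metric.mem_nhds_iff.1 (inter_mem (isOpen_dom.mem_nhds t3)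
    (((contDiffAt_rep hφ hφ t3).continuousAt_fderiv one_ne_zero).norm.eventually (gt_mem_nhds u1)))
  refine ⟨φ, hφ, t1, t2, ?_⟩
  filter_upwards [Ioo_mem_nhdsGT hε] with R hR
  have u4 := (closedBall_subset_ball (x := (0 : E)) hR.2).trans u3
  refine ⟨hR.1, fun y hy => (u4 hy).1, fun y hy => ?_, fun y hy => lt_trans (u4 hy).2 u2⟩
  have a1 := (convex_closedBall (0 : E) R).norm_image_sub_le_of_norm_fderiv_le
    (fun x hx => (hasFDerivAt_rep hφ hφ (u4 hx).1).differentiableAt)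
    (fun x hx => le_of_lt (u4 hx).2) (mem_closedBall_self hR.1.le) hy
  rw [t4, sub_zero, sub_zero] at a1
  rw [mem_closedBall_zero_iff] at hy
  rw [mem_ball_zero_iff]
  have a2 : 0 ≤ θ := (norm_nonneg _).trans u1.le
  nlinarith [hR.1, mul_le_mul_of_nonneg_left hy a2]

end Pool.Agent.Lib.MP_95f3db_an.NS
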