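import Mathlib

/-!
# A real invariant line or plane that carries the spectral radius
-/

namespace Pool.Agent.Lib.MP_95f3db_an.NS

open scoped Manifold ContDiff Topology
open Set Filter Metric Function

theorem spec_pow_le {A : Type*} [NormedRing A] [NormedAlgebra ℂ A] [CompleteSpace A] (a : A)
    {l : ℂ} (hl : (‖l‖₊ : ENNReal) = spectralRadius ℂ a) {r : ℝ} (hr : ‖l‖ < r) :
    ∃ C : ℝ, 0 ≤ C ∧ ∀ n : ℕ, ‖a ^ n‖ ≤ C * r ^ n := by
  have r0 : 0 < r := (norm_nonneg l).trans_lt hr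
  have h1 := spectrum.pow_norm_pow_one_div_tendsto_nhds_spectralRadius a
  have h2 : spectralRadius ℂ a < ENNReal.ofReal r := by
    rw [← hl, ← enorm_eq_nnnorm, ← ofReal_norm]
    exact (ENNReal.ofReal_lt_ofReal_iff r0).2 hr
  obtain ⟨N, hN⟩ := eventually_atTop.1 ((h1.eventually_lt_const h2).and (eventually_ge_atTop 1))
  have hs : 0 ≤ ∑ k ∈ Finset.range N, ‖a ^ k‖ / r ^ k :=
    Finset.sum_nonneg fun k _ => by positivity
  refine ⟨1 + ∑ k ∈ Finset.range N, ‖a ^ k‖ / r ^ k, by linarith, fun n => ?_⟩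
  have rn : 0 < r ^ n := pow_pos r0 n
  rcases lt_or_ge n N with h | h
  · have h3 : ‖a ^ n‖ / r ^ n ≤ ∑ k ∈ Finset.range N, ‖a ^ k‖ / r ^ k :=
      Finset.single_le_sum (f := fun k => ‖a ^ k‖ / r ^ k) (fun k _ => by positivity)
        (Finset.mem_range.2 h)
    rw [div_le_iff₀ rn] at h3
    nlinarith
  · obtain ⟨h3, h4⟩ := hN n h
    have h5 : ‖a ^ n‖ ^ (1 / n : ℝ) < r := (ENNReal.ofReal_lt_ofReal_iff r0).1 h3
    have h6 : (‖a ^ n‖ ^ (1 / n : ℝ)) ^ n ≤ r ^ n :=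
      pow_le_pow_left₀ (by positivity) h5.le n
    rw [one_div, Real.rpow_inv_natCast_pow (norm_nonneg _) (by omega)] at h6
    nlinarith

theorem exists_rot {P : Type*} [NormedAddCommGroup P] [NormedSpace ℝ P] [FiniteDimensional ℝ P]
    [Nontrivial P] (B : P →L[ℝ] P) :
    ∃ (l : ℂ) (Φ : ℂ →L[ℝ] P), Φ ≠ 0 ∧ (∀ z, B (Φ z) = Φ (l * z)) ∧
      ∀ r : ℝ, ‖l‖ < r → ∃ C : ℝ, ∀ n : ℕ, ‖B ^ n‖ ≤ C * r ^ n := by
  classical
  set d := Module.finrank ℝ P with hd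
  have d0 : 0 < d := Module.finrank_pos
  have : Nonempty (Fin d) := ⟨⟨0, d0⟩⟩
  let e : P ≃L[ℝ] (Fin d → ℝ) := ContinuousLinearEquiv.ofFinrankEq (by simp [hd])
  let A : Matrix (Fin d) (Fin d) ℝ :=
    LinearMap.toMatrix' (e.toLinearEquiv.conj (B : P →ₗ[ℝ] P))
  have hA : ∀ v, A.mulVec v = e (B (e.symm v)) := fun v => by
    simp only [A, LinearMap.toMatrix'_mulVec]
    rfl
  let Bc : (Fin d → ℂ) →L[ℂ] (Fin d → ℂ) :=
    LinearMap.toContinuousLinearMap (Matrix.toLin' (A.map Complex.ofReal))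
  let R : (Fin d → ℂ) →L[ℝ] P := (e.symm : (Fin d → ℝ) →L[ℝ] P).comp
    (ContinuousLinearMap.pi fun i => Complex.reCLM.comp (ContinuousLinearMap.proj i))
  let J : P →L[ℝ] (Fin d → ℂ) := (ContinuousLinearMap.pi fun i =>
    Complex.ofRealCLM.comp (ContinuousLinearMap.proj i)).comp (e : P →L[ℝ] (Fin d → ℝ))
  have hR : ∀ u, R u = e.symm fun i => (u i).re := fun u => rfl
  have hRJ : ∀ x, R (J x) = x := fun x => by
    rw [hR]
    exact e.symm_apply_apply x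
  have hB : ∀ u, B (R u) = R (Bc u) := fun u => by
    rw [hR, hR, ContinuousLinearEquiv.eq_symm_apply, ← hA]
    funext i
    simp [Bc, Matrix.mulVec, dotProduct]
  have hBn : ∀ (n : ℕ) u, (B ^ n) (R u) = R ((Bc ^ n) u) := fun n => by
    induction n with
    | zero => intro u; rfl
    | succ n ih =>
      intro u
      rw [pow_succ, pow_succ, mul_apply_eq_comp, mul_apply_eq_comp, hB, ih]
  obtain ⟨l, hl, hl'⟩ := spectrum.exists_nnnorm_eq_spectralRadius Bc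
  rw [ContinuousLinearMap.spectrum_eq, ← Module.End.hasEigenvalue_iff_mem_spectrum] at hl
  obtain ⟨u, hu⟩ := hl.exists_hasEigenvector
  have hu1 : Bc u = l • u := hu.apply_eq_smul
  refine ⟨l, R.comp ((ContinuousLinearMap.toSpanSingleton ℂ u).restrictScalars ℝ), ?_, ?_, ?_⟩
  · intro h0
    obtain ⟨i, hi⟩ := Function.ne_iff.1 hu.2
    have h1 : R ((starRingEnd ℂ) (u i) • u) = 0 := congr($h0 ((starRingEnd ℂ) (u i)))
    rw [hR, map_eq_zero_iff _ e.symm.injective] at h1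
    have h2 := congrFun h1 i
    simp only [Pi.smul_apply, smul_eq_mul, Pi.zero_apply, ← Complex.normSq_eq_conj_mul_self,
      Complex.ofReal_re, map_eq_zero] at h2
    exact hi h2
  · intro z
    change B (R (z • u)) = R ((l * z) • u)
    rw [hB, map_smul, hu1, smul_smul, mul_comm]
  · intro r hr
    obtain ⟨C, C0, hC⟩ := spec_pow_le Bc hl' hr
    have r0 : 0 < r := (norm_nonneg l).trans_lt hr
    refine ⟨‖R‖ * C * ‖J‖, fun n => ?_⟩
    refine ContinuousLinearMap.opNorm_le_bound _ (by positivity) fun x => ?_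
    calc ‖(B ^ n) x‖ = ‖R ((Bc ^ n) (J x))‖ := by rw [← hBn, hRJ]
      _ ≤ ‖R‖ * (‖Bc ^ n‖ * (‖J‖ * ‖x‖)) := by
        refine (R.le_opNorm _).trans (mul_le_mul_of_nonneg_left ?_ (norm_nonneg _))
        refine ((Bc ^ n).le_opNorm _).trans (mul_le_mul_of_nonneg_left ?_ (norm_nonneg _))
        exact J.le_opNorm x
      _ ≤ ‖R‖ * (C * r ^ n * (‖J‖ * ‖x‖)) := by gcongr; exact hC n
      _ = ‖R‖ * C * ‖J‖ * r ^ n * ‖x‖ := by ring

end Pool.Agent.Lib.MP_95f3db_an.NS
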