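import Pool.Agent.Lib.MP_95f3db_an.Linear
import Pool.Agent.Lib.MP_95f3db_an.NS.Spec

/-!
# Every automorphism is close to one that has a direction of strongest contraction
-/

namespace Pool.Agent.Lib.MP_95f3db_an.NS

open scoped Manifold ContDiff Topology
open Set Filter Metric Function

theorem strong_psi {P : Type*} [NormedAddCommGroup P] [NormedSpace ℝ P] [FiniteDimensional ℝ P]
    (Φ : ℂ →L[ℝ] P) : ∃ Ψ : P →L[ℝ] ℂ, ∀ z, Φ (Ψ (Φ z)) = Φ z := by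
  obtain ⟨g, hg⟩ := (Φ : ℂ →ₗ[ℝ] P).rangeRestrict.exists_rightInverse_of_surjective
    (LinearMap.range_rangeRestrict _)
  obtain ⟨G, hG⟩ := LinearMap.exists_extend g
  refine ⟨LinearMap.toContinuousLinearMap G, fun z => ?_⟩
  have h1 : G (Φ z) = g ⟨Φ z, ⟨z, rfl⟩⟩ := LinearMap.congr_fun hG ⟨Φ z, ⟨z, rfl⟩⟩
  have h2 := congrArg Subtype.val (LinearMap.congr_fun hg ⟨Φ z, ⟨z, rfl⟩⟩)
  change Φ (G (Φ z)) = Φ z
  rw [h1]
  exact h2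

theorem strong_growth {P : Type*} [NormedAddCommGroup P] [NormedSpace ℝ P]
    (B B' : P →L[ℝ] P) (Φ : ℂ →L[ℝ] P) (Θ : P →L[ℝ] ℂ) (μ : ℂ) {r C : ℝ} (hr0 : 0 ≤ r)
    (hr : r < ‖μ‖) (hC : ∀ n : ℕ, ‖B ^ n‖ ≤ C * r ^ n) (h1 : ∀ y, B' y = B y + Φ (Θ y))
    (h2 : ∀ z, B' (Φ z) = Φ (μ * z)) :
    ∃ C' : ℝ, 0 ≤ C' ∧ ∀ (n : ℕ) (y : P), ‖B'^[n] y‖ ≤ C' * ‖μ‖ ^ n * ‖y‖ := by
  have hC0 : 0 ≤ C := by
    have := (norm_nonneg _).trans (hC 0)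
    simpa using this
  have hd : 0 < ‖μ‖ - r := sub_pos.2 hr
  set K := ‖Θ‖ * C / (‖μ‖ - r) with hK
  have hK0 : 0 ≤ K := by positivity
  have hK1 : K * (‖μ‖ - r) = ‖Θ‖ * C := div_mul_cancel₀ _ hd.ne'
  have hB : ∀ (n : ℕ) (y : P), ‖(B ^ n) y‖ ≤ C * r ^ n * ‖y‖ := fun n y =>
    ((B ^ n).le_opNorm y).trans (mul_le_mul_of_nonneg_right (hC n) (norm_nonneg _))
  have key : ∀ (y : P) (n : ℕ), ∃ w : ℂ, B'^[n] y = (B ^ n) y + Φ w ∧
      ‖w‖ ≤ K * (‖μ‖ ^ n - r ^ n) * ‖y‖ := by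
    intro y n
    induction n with
    | zero => exact ⟨0, by simp, by simp⟩
    | succ n ih =>
      obtain ⟨w, e, hw⟩ := ih
      refine ⟨μ * w + Θ ((B ^ n) y), ?_, ?_⟩
      · rw [iterate_succ_apply', e, map_add, h1, h2, map_add, pow_succ',
          ContinuousLinearMap.mul_apply]
        abel
      · have a1 : ‖μ * w‖ ≤ ‖μ‖ * (K * (‖μ‖ ^ n - r ^ n) * ‖y‖) := by
          rw [norm_mul]
          exact mul_le_mul_of_nonneg_left hw (norm_nonneg _)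
        have a2 : ‖Θ ((B ^ n) y)‖ ≤ ‖Θ‖ * (C * r ^ n * ‖y‖) :=
          (Θ.le_opNorm _).trans (mul_le_mul_of_nonneg_left (hB n y) (norm_nonneg _))
        have a3 : ‖μ‖ * (K * (‖μ‖ ^ n - r ^ n) * ‖y‖) + ‖Θ‖ * (C * r ^ n * ‖y‖) =
            K * (‖μ‖ ^ (n + 1) - r ^ (n + 1)) * ‖y‖ := by
          have : ‖Θ‖ * (C * r ^ n * ‖y‖) = K * (‖μ‖ - r) * (r ^ n * ‖y‖) := by rw [hK1]; ring
          rw [this]
          ring
        exact (norm_add_le _ _).trans ((add_le_add a1 a2).trans a3.le)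
  refine ⟨C + ‖Φ‖ * K, by positivity, fun n y => ?_⟩
  obtain ⟨w, e, hw⟩ := key y n
  have b1 : r ^ n ≤ ‖μ‖ ^ n := pow_le_pow_left₀ hr0 hr.le n
  have b0 : 0 ≤ r ^ n := pow_nonneg hr0 n
  have b2 : ‖(B ^ n) y‖ ≤ C * ‖μ‖ ^ n * ‖y‖ := (hB n y).trans (by gcongr)
  have b3 : ‖w‖ ≤ K * ‖μ‖ ^ n * ‖y‖ := hw.trans (by gcongr; linarith)
  have b4 : ‖Φ w‖ ≤ ‖Φ‖ * (K * ‖μ‖ ^ n * ‖y‖) :=
    (Φ.le_opNorm w).trans (mul_le_mul_of_nonneg_left b3 (norm_nonneg _))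
  rw [e]
  exact (norm_add_le _ _).trans ((add_le_add b2 b4).trans (le_of_eq (by ring)))

theorem exists_strong_near {P : Type*} [NormedAddCommGroup P] [NormedSpace ℝ P]
    [FiniteDimensional ℝ P] [Nontrivial P] (A : P ≃L[ℝ] P) {ε : ℝ} (hε : 0 < ε) :
    ∃ A' : P ≃L[ℝ] P, ‖(A' : P →L[ℝ] P) - A‖ ≤ ε ∧ ‖(A'.symm : P →L[ℝ] P) - A.symm‖ ≤ ε ∧
      ∃ v ≠ 0, Strong A' v := by
  set B : P →L[ℝ] P := (A.symm : P →L[ℝ] P) with hBdef
  obtain ⟨l, Φ, hΦ, hB, hr⟩ := exists_rot B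
  obtain ⟨Ψ, hΨ⟩ := strong_psi Φ
  obtain ⟨z₀, hz₀⟩ : ∃ z, Φ z ≠ 0 := by
    by_contra hc
    exact hΦ (ContinuousLinearMap.ext fun z => by_contra fun h => hc ⟨z, h⟩)
  have hl : l ≠ 0 := by
    rintro rfl
    have h := hB z₀
    rw [zero_mul, map_zero] at h
    exact hz₀ (A.symm.injective (h.trans (map_zero _).symm))
  have hl' : 0 < ‖l‖ := norm_pos_iff.2 hl
  set pr : P →L[ℝ] P := Φ ∘L Ψ with hpr
  have pp : ∀ y, pr (pr y) = pr y := fun y => hΨ _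
  set M := ‖pr ∘L (A : P →L[ℝ] P)‖ + ‖B ∘L pr‖ + 1 with hM
  have hM0 : 0 < M := by positivity
  set d := ε / M with hd
  have hd0 : 0 < d := by positivity
  have hdM : d * M = ε := div_mul_cancel₀ _ hM0.ne'
  set c := d / (1 + d) with hc
  have hc0 : 0 ≤ c := by positivity
  have hc1 : c * (1 + d) = d := div_mul_cancel₀ _ (by positivity)
  have hcd : c ≤ d := by nlinarith
  have AB : ∀ y, A (B y) = y := fun y => A.apply_symm_apply y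
  have BA : ∀ y, B (A y) = y := fun y => A.symm_apply_apply y
  let A₁ : P →L[ℝ] P := (A : P →L[ℝ] P) - c • pr ∘L (A : P →L[ℝ] P)
  let B₁ : P →L[ℝ] P := B + d • B ∘L pr
  have eA : ∀ y, A₁ y = A y - c • pr (A y) := fun y => rfl
  have eB : ∀ y, B₁ y = B (y + d • pr y) := fun y => by
    rw [map_add, map_smul]
    rfl
  have i1 : LeftInverse B₁ A₁ := fun y => by
    have : A y - c • pr (A y) + d • pr (A y - c • pr (A y)) = A y := by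
      rw [map_sub, map_smul, pp, smul_sub, smul_smul]
      have h3 : d * c = d - c := by linarith
      rw [h3]
      module
    rw [eB, eA, this, BA]
  have i2 : RightInverse B₁ A₁ := fun y => by
    rw [eA, eB, AB, map_add, map_smul, pp, smul_add, smul_smul]
    have h3 : c * d = d - c := by linarith
    rw [h3]
    module
  refine ⟨ContinuousLinearEquiv.equivOfInverse A₁ B₁ i1 i2, ?_, ?_, Φ z₀, hz₀, ?_⟩
  · have : ((ContinuousLinearEquiv.equivOfInverse A₁ B₁ i1 i2 : P ≃L[ℝ] P) : P →L[ℝ] P) - A =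
        -(c • pr ∘L (A : P →L[ℝ] P)) := by
      ext y
      change A y - c • pr (A y) - A y = -(c • pr (A y))
      abel
    rw [this, norm_neg, norm_smul, Real.norm_of_nonneg hc0, ← hdM]
    exact mul_le_mul hcd (by have := norm_nonneg (B ∘L pr); linarith) (norm_nonneg _) hd0.le
  · have : ((ContinuousLinearEquiv.equivOfInverse A₁ B₁ i1 i2).symm : P →L[ℝ] P) - B =
        d • B ∘L pr := by
      ext y
      change B y + d • B (pr y) - B y = d • B (pr y)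
      abel
    rw [this, norm_smul, Real.norm_of_nonneg hd0.le, ← hdM]
    exact mul_le_mul_of_nonneg_left
      (by have := norm_nonneg (pr ∘L (A : P →L[ℝ] P)); linarith) hd0.le
  set μ : ℂ := (1 + d) • l with hμ
  have hμn : ‖μ‖ = (1 + d) * ‖l‖ := by
    rw [hμ, norm_smul, Real.norm_of_nonneg (by positivity)]
  have hμp : 0 < ‖μ‖ := by rw [hμn]; positivity
  have hμ0 : μ ≠ 0 := norm_pos_iff.1 hμp
  have h2 : ∀ z, B₁ (Φ z) = Φ (μ * z) := fun z => by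
    have : pr (Φ z) = Φ z := hΨ z
    rw [eB, this, map_add, map_smul, hB, hμ, smul_mul_assoc, map_smul, add_smul, one_smul]
  obtain ⟨C, hC⟩ := hr ((1 + d / 2) * ‖l‖) (by nlinarith)
  obtain ⟨C', hC0, hC'⟩ := strong_growth B B₁ Φ (d • (ContinuousLinearMap.mul ℝ ℂ l) ∘L Ψ) μ
    (by positivity) (by rw [hμn]; nlinarith) hC (fun y => by
      rw [eB, map_add, map_smul]
      change _ + d • B (Φ (Ψ y)) = _ + Φ (d • (l * Ψ y))
      rw [hB, map_smul]) h2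
  have h3 : ∀ z, A₁ (Φ z) = Φ (μ⁻¹ * z) := fun z => by
    have h4 : Φ z = B₁ (Φ (μ⁻¹ * z)) := by rw [h2, mul_inv_cancel_left₀ hμ0]
    rw [h4, i2]
  have h4 : ∀ n : ℕ, A₁^[n] (Φ z₀) = Φ (μ⁻¹ ^ n * z₀) := fun n => by
    induction n with
    | zero => simp
    | succ n ih => rw [iterate_succ_apply', ih, h3, pow_succ', mul_assoc]
  refine ⟨‖Φ‖ * ‖z₀‖ * C', fun n y => ?_⟩
  change ‖A₁^[n] (Φ z₀)‖ * ‖y‖ ≤ _ * ‖A₁^[n] y‖
  have k1 : ‖A₁^[n] (Φ z₀)‖ ≤ ‖Φ‖ * (‖μ‖⁻¹ ^ n * ‖z₀‖) := by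
    rw [h4]
    refine (Φ.le_opNorm _).trans (le_of_eq ?_)
    rw [norm_mul, norm_pow, norm_inv]
  have k2 : ‖y‖ ≤ C' * ‖μ‖ ^ n * ‖A₁^[n] y‖ := by
    have := hC' n (A₁^[n] y)
    rwa [i1.iterate n y] at this
  have k3 : ‖μ‖⁻¹ ^ n * ‖μ‖ ^ n = 1 := by rw [← mul_pow, inv_mul_cancel₀ hμp.ne', one_pow]
  calc _ ≤ ‖Φ‖ * (‖μ‖⁻¹ ^ n * ‖z₀‖) * (C' * ‖μ‖ ^ n * ‖A₁^[n] y‖) :=
        mul_le_mul k1 k2 (norm_nonneg _) (by positivity)
    _ = ‖Φ‖ * ‖z₀‖ * C' * ‖A₁^[n] y‖ * (‖μ‖⁻¹ ^ n * ‖μ‖ ^ n) := by ring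
    _ = _ := by rw [k3, mul_one]

end Pool.Agent.Lib.MP_95f3db_an.NS
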