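import Pool.Agent.Lib.MP_95f3db_an.NS.Base

/-!
# The forced tangency; changing the linear part at a fixed point
-/

namespace Pool.Agent.Lib.MP_95f3db_an.NS

open scoped Manifold ContDiff Topology
open Set Filter Metric Function

variable {E : Type*} [NormedAddCommGroup E] [NormedSpace ℝ E] [FiniteDimensional ℝ E]
  {M : Type*} [TopologicalSpace M] [ChartedSpace E M] [IsManifold 𝓘(ℝ, E) 1 M] [CompactSpace M]
  [T2Space M] {P : Type*} [NormedAddCommGroup P] [NormedSpace ℝ P] [FiniteDimensional ℝ P]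

omit [FiniteDimensional ℝ E] [IsManifold 𝓘(ℝ, E) 1 M] [CompactSpace M] [T2Space M] in
lemma tang_iter {φ : OpenPartialHomeomorph M P} {f : Diff1 E M} {R r : ℝ} (hφ : IsChart E φ)
    (h : Contr f φ R) {s : P} (hs : s ∈ closedBall 0 R) (hfix : rep f φ φ s = s) (hr : 0 < r) :
    ∃ k : ℕ, ∀ y ∈ closedBall 0 R,
      (f ^ k) (φ.symm y) ∈ φ.source ∧ φ ((f ^ k) (φ.symm y)) ∈ ball s r := by
  obtain ⟨θ, h0, h1, -, h3⟩ := h.iter_le hφ hs hfix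
  have := (tendsto_pow_atTop_nhds_zero_of_lt_one h0.le h1).mul_const (2 * R)
  rw [zero_mul] at this
  obtain ⟨k, hk⟩ := (this.eventually (gt_mem_nhds hr)).exists
  refine ⟨k, fun y hy => ⟨(h.iter hy k).1.2, ?_⟩⟩
  rw [mem_ball, dist_eq_norm]
  refine lt_of_le_of_lt ((h3 y hy k).trans ?_) hk
  rw [mem_closedBall_zero_iff] at hy hs
  have := norm_sub_le y s
  gcongr
  linarith

omit [FiniteDimensional ℝ E] [IsManifold 𝓘(ℝ, E) 1 M] [CompactSpace M] [T2Space M]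
  [FiniteDimensional ℝ P] in
lemma tang_up_ne {φ : OpenPartialHomeomorph M P} (hφ : IsChart E φ) {y : P} (hy : y ∈ φ.target)
    {v : P} (hv : v ≠ 0) : (up E φ (y, v)).2 ≠ 0 := by
  intro h0
  have h1 := down_tang_up (k := 1) hφ hφ (y := y) ⟨hy, φ.map_target hy⟩ v
  rw [tang_one, fderiv_rep_one hy] at h1
  have h2 : (down φ (up E φ (y, v))).2 = 0 := by
    show mfderiv 𝓘(ℝ, E) 𝓘(ℝ, P) φ (up E φ (y, v)).1 (up E φ (y, v)).2 = 0
    rw [h0, map_zero]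
  rw [h1] at h2
  exact hv h2

omit [FiniteDimensional ℝ E] [IsManifold 𝓘(ℝ, E) 1 M] [CompactSpace M] [T2Space M]
  [FiniteDimensional ℝ P] in
lemma tang_up_smul (φ : OpenPartialHomeomorph M P) (y v : P) (c : ℝ) :
    (⟨(up E φ (y, v)).1, c • (up E φ (y, v)).2⟩ : TM E M) = up E φ (y, c • v) := by
  have e : (up E φ (y, c • v)).2 = c • (up E φ (y, v)).2 :=
    (mfderiv 𝓘(ℝ, P) 𝓘(ℝ, E) φ.symm y).map_smul c v
  exact congrArg (fun u => (⟨φ.symm y, u⟩ : TM E M)) e.symm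

omit [FiniteDimensional ℝ E] [CompactSpace M] [T2Space M] [FiniteDimensional ℝ P] in
lemma tang_up_cont {φ : OpenPartialHomeomorph M P} (hφ : IsChart E φ) (v : P) {x : M}
    (hx : x ∈ φ.source) : ContinuousAt (fun z => up E φ (φ z, v)) x :=
  (continuousAt_up hφ (p := (φ x, v)) (φ.map_source hx)).comp_of_eq
    ((φ.continuousAt hx).prodMk continuousAt_const) rfl

omit [FiniteDimensional ℝ E] [CompactSpace M] [T2Space M] in
theorem exists_tangent (hM : NoField E M) {𝓕 : Frame E M P} {m : ℕ} {f : Diff1 E M}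
    (hf : Good 𝓕 f) (ha : Absorb 𝓕 m f) {s n : P} (hs : s ∈ closedBall 0 𝓕.RS)
    (hs' : rep f 𝓕.φS 𝓕.φS s = s) (hn : n ∈ closedBall 0 𝓕.RN)
    (hn' : rep f⁻¹ 𝓕.φN 𝓕.φN n = n) {r : ℝ} (hr : 0 < r) {v w : P} (hv : v ≠ 0) (hw : w ≠ 0) :
    ∃ (N : ℕ) (a : P) (c : ℝ), a ∈ ball n r ∧ a ∈ Dom (f ^ N) 𝓕.φN 𝓕.φS ∧
      rep (f ^ N) 𝓕.φN 𝓕.φS a ∈ ball s r ∧ fderiv ℝ (rep (f ^ N) 𝓕.φN 𝓕.φS) a w = c • v := by
  obtain ⟨k, hk⟩ := tang_iter 𝓕.cS hf.S hs hs' hr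
  obtain ⟨j, hj⟩ := tang_iter 𝓕.cN hf.N hn hn' hr
  set N := k + m + j with hN
  obtain ⟨x, ⟨⟨x1, x2⟩, x3, x4⟩, c, e⟩ := hM ((f ^ N) ⁻¹' (𝓕.φS.source ∩ 𝓕.φS ⁻¹' ball s r))
    (𝓕.φN.source ∩ 𝓕.φN ⁻¹' ball n r)
    (fun x => tang (f ^ N)⁻¹ (up E 𝓕.φS (𝓕.φS ((f ^ N) x), v)))
    (fun x => up E 𝓕.φN (𝓕.φN x, w))
    ((𝓕.φS.isOpen_inter_preimage isOpen_ball).preimage (f ^ N).continuous)
    (𝓕.φN.isOpen_inter_preimage isOpen_ball)
    (eq_univ_of_forall fun x => by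
      by_cases hx : (f ^ j) x ∈ 𝓕.φN.symm '' ball 0 𝓕.RN
      · obtain ⟨y, hy, e⟩ := hx
        have := hj y (ball_subset_closedBall hy)
        rw [e, inv_pow, diff_inv_apply] at this
        exact Or.inr this
      · obtain ⟨y, hy, e⟩ := ha _ hx
        have := hk y (ball_subset_closedBall hy)
        rw [e, ← diff_mul_apply, ← diff_mul_apply, ← pow_add, ← pow_add] at this
        exact Or.inl this)
    (fun x hx => ((tangCM (f ^ N)⁻¹).continuous.continuousAt.comp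
      ((tang_up_cont 𝓕.cS v hx.1).comp (f := fun x => (f ^ N) x)
        (f ^ N).continuous.continuousAt)).continuousWithinAt)
    (fun x hx => (tang_up_cont 𝓕.cN w hx.1).continuousWithinAt)
    (fun x hx => ⟨by rw [tang_fst, up_fst, 𝓕.φS.left_inv hx.1, diff_inv_apply],
      fun h => tang_up_ne 𝓕.cS (𝓕.φS.map_source hx.1) hv ((tang_snd_eq_zero _ _).mp h)⟩)
    (fun x hx => ⟨𝓕.φN.left_inv hx.1, tang_up_ne 𝓕.cN (𝓕.φN.map_source hx.1) hw⟩)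
  have hd : 𝓕.φN x ∈ Dom (f ^ N) 𝓕.φN 𝓕.φS :=
    ⟨𝓕.φN.map_source x3, by rwa [𝓕.φN.left_inv x3]⟩
  have hrep : rep (f ^ N) 𝓕.φN 𝓕.φS (𝓕.φN x) = 𝓕.φS ((f ^ N) x) := by
    rw [rep, 𝓕.φN.left_inv x3]
  have e1 := down_tang_up 𝓕.cN 𝓕.cS hd (c • w)
  rw [← tang_up_smul, ← e, ← tang_mul, mul_inv_cancel,
    down_tang_up (k := 1) 𝓕.cS 𝓕.cS ⟨𝓕.φS.map_source x1, 𝓕.φS.map_target (𝓕.φS.map_source x1)⟩,
    fderiv_rep_one (𝓕.φS.map_source x1), map_smul] at e1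
  have e2 : v = c • fderiv ℝ (rep (f ^ N) 𝓕.φN 𝓕.φS) (𝓕.φN x) w := congrArg Prod.snd e1
  have hc : c ≠ 0 := by
    rintro rfl
    exact hv (by rw [e2, zero_smul])
  exact ⟨N, 𝓕.φN x, c⁻¹, x4, hd, hrep ▸ x2, by rw [e2, smul_smul, inv_mul_cancel₀ hc, one_smul]⟩

theorem relin {𝓕 : Frame E M P} {f : Diff1 E M} (h : Good 𝓕 f) {W : Set (Diff1 E M)}
    (hW : W ∈ 𝓝 f) {φ : OpenPartialHomeomorph M P} {R : ℝ}
    (hφ : (φ = 𝓕.φS ∧ R = 𝓕.RS) ∨ (φ = 𝓕.φN ∧ R = 𝓕.RN)) {a : P} (ha : a ∈ ball 0 R)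
    (A : P ≃L[ℝ] P) (hA : ∀ᶠ y in 𝓝 a, f (φ.symm y) = φ.symm (a + A (y - a))) :
    ∃ ε > 0, ∀ A' : P ≃L[ℝ] P, ‖(A' : P →L[ℝ] P) - A‖ ≤ ε →
      ∃ σ, Good 𝓕 (f * σ) ∧ f * σ ∈ W ∧ (∀ x ∉ φ.symm '' closedBall 0 R, σ x = x) ∧
        ∀ᶠ y in 𝓝 a, (f * σ) (φ.symm y) = φ.symm (a + A' (y - a)) := by
  have : ProperSpace P := FiniteDimensional.proper ℝ P
  have : CompleteSpace P := FiniteDimensional.complete ℝ P
  obtain ⟨hφc, hφt⟩ := h.chart hφ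
  obtain ⟨δ, hδ, hδ', hp⟩ := h.pert hW hφ
  obtain ⟨C, hC, hcut⟩ := exists_cutoff P
  set K := ‖(A.symm : P →L[ℝ] P)‖ with hK
  have hK0 : 0 ≤ K := norm_nonneg _
  have hθ : 0 < δ / C := by positivity
  refine ⟨δ / C / (K + 1), by positivity, fun A' hA' => ?_⟩
  set T : P →L[ℝ] P := (A.symm : P →L[ℝ] P).comp ((A' : P →L[ℝ] P) - (A : P →L[ℝ] P))
    with hT
  have hT1 : ‖T‖ ≤ δ / C := by
    refine (ContinuousLinearMap.opNorm_comp_le _ _).trans ?_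
    calc _ ≤ (K + 1) * (δ / C / (K + 1)) := by gcongr; linarith
      _ = _ := by field_simp
  have hG : ∀ y, HasFDerivAt (fun y => T (y - a)) T y := fun y =>
    T.hasFDerivAt.comp y ((hasFDerivAt_id y).sub_const a)
  obtain ⟨r, hr, hr'⟩ := Metric.isOpen_iff.mp isOpen_ball a ha
  obtain ⟨s, rfl⟩ : ∃ s, r = 3 * s := ⟨r / 3, by ring⟩
  have hs : 0 < s := by linarith
  obtain ⟨χ, -, -, -, hχ1, -, hu⟩ := hcut a s (δ / C) (fun y => T (y - a)) hs hθ.le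
    (fun y _ => (T.contDiff.comp (contDiff_id.sub contDiff_const)).contDiffAt)
    (fun y hy => by
      rw [mem_ball, dist_eq_norm] at hy
      calc _ ≤ δ / C * ‖y - a‖ := T.le_of_opNorm_le hT1 _
        _ ≤ δ / C * (3 * s) := by gcongr
        _ = _ := by ring)
    (fun y _ => by rwa [(hG y).fderiv])
  rw [mul_div_cancel₀ _ (by linarith)] at hu
  have hsub : closedBall a (2 * s) ⊆ closedBall 0 R := fun y hy =>
    ball_subset_closedBall (hr' (closedBall_subset_ball (by linarith) hy))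
  obtain ⟨σ, hσ⟩ := exists_tr hφc (isCompact_closedBall _ _) (fun y hy => hφt (hsub hy)) hu hδ'
  obtain ⟨g1, g2⟩ := hp _ σ (hu.mono hsub le_rfl) (hσ.mono hsub)
  refine ⟨σ, g1, g2, (hσ.mono hsub).out, ?_⟩
  have h1 : Tendsto (fun y => y + T (y - a)) (𝓝 a) (𝓝 a) := by
    have : Continuous fun y => y + T (y - a) := by fun_prop
    simpa using this.tendsto a
  filter_upwards [closedBall_mem_nhds a hs, h1.eventually hA] with y hy hy'
  rw [diff_mul_apply, hσ.eq y (hφt (hsub (closedBall_subset_closedBall (by linarith) hy))),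
    hχ1 y hy, one_smul, hy']
  congr 2
  rw [add_sub_right_comm, map_add]
  simp [hT]

end Pool.Agent.Lib.MP_95f3db_an.NS
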