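import Pool.Agent.Lib.MP_95f3db_an.NS.Tail
import Pool.Agent.Lib.MP_95f3db_an.NS.Tang
import Pool.Agent.Lib.MP_95f3db_an.NS.Frame
import Pool.Agent.Lib.MP_95f3db_an.NS.Strong
import Pool.Agent.Lib.MP_95f3db_an.NS.Field

/-!
# Density of large centralizers among north-south diffeomorphisms
-/

namespace Pool.Agent.Lib.MP_95f3db_an.NS

open scoped Manifold ContDiff Topology
open Set Filter Metric Function

variable {E : Type*} [NormedAddCommGroup E] [InnerProductSpace ℝ E] [FiniteDimensional ℝ E]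
  {M : Type*} [TopologicalSpace M] [ChartedSpace E M] [IsManifold 𝓘(ℝ, E) 1 M] [CompactSpace M]
  [T2Space M]

theorem dense_flow [Nontrivial E] (hM : NoField E M) {f : Diff1 E M} (hf : f ∈ northSouth E M)
    {W : Set (Diff1 E M)} (hW : W ∈ 𝓝 f) :
    ∃ f' ∈ W, f' ∈ northSouth E M ∧ FlowInCentralizer f' := by
  obtain ⟨𝓕, m, g0, ha⟩ := exists_frame hf
  obtain ⟨W', hW'W, hW'o, hfW'⟩ := _root_.mem_nhds_iff.mp (inter_mem hW (ha.eventually g0))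
  -- the sink
  obtain ⟨s, hs, hs'⟩ := g0.S.exists_fix 𝓕.cS
  have hsb : s ∈ ball 0 𝓕.RS := hs' ▸ g0.S.maps s hs
  obtain ⟨A, hA, -⟩ := exists_equiv_rep 𝓕.cS 𝓕.cS (g0.S.dom hs)
  obtain ⟨σ₁, g1, w1, -, l1⟩ := g0.affine (hW'o.mem_nhds hfW') (Or.inl ⟨rfl, rfl⟩) 𝓕.cS
    hsb (g0.S.dom hs) univ_mem
  rw [hs', ← hA] at l1
  obtain ⟨ε₁, hε₁, r1⟩ := relin g1 (hW'o.mem_nhds w1) (Or.inl ⟨rfl, rfl⟩) hsb A l1
  obtain ⟨A', hA', -, v, hv, sv⟩ := exists_strong_near A hε₁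
  obtain ⟨σ₂, g2, w2, -, l2⟩ := r1 A' hA'
  set f₂ := f * σ₁ * σ₂
  -- the source
  obtain ⟨n, hn, hn'⟩ := g2.N.exists_fix 𝓕.cN
  have hnb : n ∈ ball 0 𝓕.RN := hn' ▸ g2.N.maps n hn
  have hnd := Dom.inv (g2.N.dom hn)
  have hnf := Dom.rep_inv (g2.N.dom hn)
  rw [hn', inv_inv] at hnd hnf
  obtain ⟨B, hB, -⟩ := exists_equiv_rep 𝓕.cN 𝓕.cN hnd
  obtain ⟨σ₃, g3, w3, o3, l3⟩ := g2.affine (hW'o.mem_nhds w2) (Or.inr ⟨rfl, rfl⟩) 𝓕.cN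
    hnb hnd univ_mem
  rw [hnf, ← hB] at l3
  obtain ⟨ε₂, hε₂, r2⟩ := relin g3 (hW'o.mem_nhds w3) (Or.inr ⟨rfl, rfl⟩) hnb B l3
  obtain ⟨B', -, hB', w, hw, sw⟩ := exists_strong_near B.symm hε₂
  obtain ⟨σ₄, g4, w4, o4, l4⟩ := r2 B'.symm hB'
  set f₄ := f₂ * σ₃ * σ₄
  have l5 : ∀ᶠ y in 𝓝 n, f₄⁻¹ (𝓕.φN.symm y) = 𝓕.φN.symm (n + B' (y - n)) := lin_inv B'.symm l4
  have l6 : ∀ᶠ y in 𝓝 s, f₄ (𝓕.φS.symm y) = 𝓕.φS.symm (s + A' (y - s)) := by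
    filter_upwards [l2, isOpen_ball.mem_nhds hsb] with y hy hy'
    have hout := Set.disjoint_left.mp 𝓕.disj ⟨y, ball_subset_closedBall hy', rfl⟩
    rw [diff_mul_apply, diff_mul_apply, o4 _ hout, o3 _ (by rwa [univ_inter]), hy]
  have hs4 : rep f₄ 𝓕.φS 𝓕.φS s = s := by
    rw [rep, l6.self_of_nhds, sub_self, map_zero, add_zero, 𝓕.φS.right_inv (g0.S.dom hs).1]
  have hn4 : rep f₄⁻¹ 𝓕.φN 𝓕.φN n = n := by
    rw [rep, l5.self_of_nhds, sub_self, map_zero, add_zero, 𝓕.φN.right_inv hnd.1]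
  obtain ⟨f', w5, g5, h5⟩ := tail g4 (hW'o.mem_nhds w4) hsb hnb l6 l5 hw sv sw
    fun r hr => exists_tangent hM g4 (hW'W w4).2 hs hs4 hn hn4 hr hv hw
  exact ⟨f', (hW'W w5).1, Absorb.northSouth g5 (hW'W w5).2, h5⟩

end Pool.Agent.Lib.MP_95f3db_an.NS
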