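import Pool.Agent.Lib.MP_95f3db_an.Linear

/-!
# A model family in which the translations form a group
-/

namespace Pool.Agent.Lib.MP_95f3db_an.NS

open scoped Manifold ContDiff Topology
open Set Filter Metric Function Real

theorem exists_model_add (F : Type*) [NormedAddCommGroup F] [NormedSpace ℝ F]
    [FiniteDimensional ℝ F] : ∃ 𝓜 : Model F, ∀ (b b' : ℝ) (y : F × ℝ),
      𝓜.η (0, b + b') y =
        𝓜.η (0, b') y + 𝓜.η (0, b) (y + 𝓜.η (0, b') y • ((0, 1) : F × ℝ)) := by
  have : ProperSpace F := FiniteDimensional.proper ℝ F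
  let β : ContDiffBump (0 : F) := ⟨1, 2, one_pos, by norm_num⟩
  let γ : ContDiffBump (0 : F) := ⟨2, 3, two_pos, by norm_num⟩
  have hβ : ContDiff ℝ 1 β := β.contDiff
  have hγ : ContDiff ℝ 1 γ := γ.contDiff
  set D : Set (F × ℝ) := closedBall (0 : F) 3 ×ˢ Icc (-(π / 2)) (π / 2) with hD
  set η : ℝ × ℝ → F × ℝ → ℝ := fun q y => alp (q.1 * γ y.1) (q.2 * β y.1) y.2 - y.2 with hη
  have hDc : IsCompact D := (isCompact_closedBall _ _).prod isCompact_Icc
  have hΦ : ContDiff ℝ 1 fun p : (ℝ × ℝ) × (F × ℝ) => η p.1 p.2 :=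
    contDiff_alp.comp (f := fun p : (ℝ × ℝ) × (F × ℝ) =>
      (p.1.1 * γ p.2.1, p.1.2 * β p.2.1, p.2.2))
      (((contDiff_fst.comp contDiff_fst).mul (hγ.comp (contDiff_fst.comp contDiff_snd))).prodMk
        (((contDiff_snd.comp contDiff_fst).mul (hβ.comp (contDiff_fst.comp contDiff_snd))).prodMk
          (contDiff_snd.comp contDiff_snd)))
  have hcd : ∀ q, ContDiff ℝ 1 (η q) := fun q =>
    hΦ.comp (f := fun y : F × ℝ => (q, y)) (contDiff_const.prodMk contDiff_id)
  have hout : ∀ q, ∀ y ∉ D, η q y = 0 := by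
    intro q y hy
    simp only [hD, mem_prod, not_and_or] at hy
    rcases hy with hy | hy
    · rw [mem_closedBall, not_le] at hy
      have h1 : γ y.1 = 0 := γ.zero_of_le_dist hy.le
      have h2 : β y.1 = 0 := β.zero_of_le_dist (show (2 : ℝ) ≤ _ by linarith)
      simp only [hη, h1, h2, mul_zero, alp_zero, sub_self]
    · simp only [hη]
      rw [alp_of_notMem fun h => hy (Ioo_subset_Icc_self h), sub_self]
  have hout' : ∀ q, ∀ y ∉ D, fderiv ℝ (η q) y = 0 := by
    intro q y hy
    have : η q =ᶠ[𝓝 y] fun _ => 0 := by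
      filter_upwards [hDc.isClosed.isOpen_compl.mem_nhds hy] with z hz using hout q z hz
    rw [this.fderiv_eq]; simp
  have hzero : ∀ y, η 0 y = 0 := fun y => by simp [hη, alp_zero]
  have hfd : ∀ q y, fderiv ℝ (η q) y = (fderiv ℝ (fun p : (ℝ × ℝ) × (F × ℝ) => η p.1 p.2)
      (q, y)).comp (ContinuousLinearMap.inr ℝ _ _) := fun q y =>
    ((hΦ.differentiable one_ne_zero (q, y)).hasFDerivAt.comp y
      (hasFDerivAt_prodMk_right q y)).fderiv
  have hcont : Continuous fun p : (ℝ × ℝ) × (F × ℝ) => fderiv ℝ (η p.1) p.2 := by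
    simp only [hfd]
    exact (hΦ.continuous_fderiv one_ne_zero).clm_comp continuous_const
  have hbdd : ∀ q, BddAbove (range fun y => ‖fderiv ℝ (η q) y‖) := by
    intro q
    have h1 : HasCompactSupport (fderiv ℝ (η q)) :=
      HasCompactSupport.intro hDc (hout' q)
    obtain ⟨C, hC⟩ := h1.exists_bound_of_continuous ((hcd q).continuous_fderiv one_ne_zero)
    exact ⟨C, by rintro _ ⟨y, rfl⟩; exact hC y⟩
  have hH : ∀ q y, y + η q y • ((0, 1) : F × ℝ) = (y.1, alp (q.1 * γ y.1) (q.2 * β y.1) y.2) := by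
    intro q y
    ext <;> simp [hη]
  refine ⟨⟨D, η, fun q => ⨆ y, ‖fderiv ℝ (η q) y‖, hDc, ?_, hcd, hout,
    fun q y => le_ciSup (hbdd q) y, ?_, ?_, hzero, ?_, ?_⟩, ?_⟩
  · refine ⟨by simp, ?_⟩
    simp only [Prod.snd_zero, mem_Icc]
    constructor <;> linarith [pi_pos]
  · rw [Metric.tendsto_nhds]
    intro ε hε
    have h1 : ∀ᶠ q : ℝ × ℝ in 𝓝 0, ∀ y ∈ D, ‖fderiv ℝ (η q) y‖ < ε / 2 := by
      refine hDc.eventually_forall_of_forall_eventually fun y _ => ?_
      have h2 : η 0 = fun _ => 0 := funext hzero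
      refine (hcont.norm.tendsto (0, y)).eventually (gt_mem_nhds ?_)
      simp only [h2, fderiv_fun_const, Pi.zero_apply, norm_zero]
      linarith
    filter_upwards [h1] with q hq
    rw [Real.dist_eq, sub_zero, abs_of_nonneg (Real.iSup_nonneg fun y => norm_nonneg _)]
    refine lt_of_le_of_lt (ciSup_le fun y => ?_) (half_lt_self hε)
    by_cases hy : y ∈ D
    · exact (hq y hy).le
    · rw [hout' q y hy, norm_zero]; linarith
  · intro q y hy
    rw [hH]
    refine ⟨hy.1, ?_⟩
    by_cases ht : y.2 ∈ Ioo (-(π / 2)) (π / 2)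
    · exact Ioo_subset_Icc_self (alp_mem ht)
    · simp only [alp_of_notMem ht]; exact hy.2
  · intro b hb
    have h1 : β 0 = 1 := β.one_of_mem_closedBall (by simp [β])
    simp only [hη, Prod.fst_zero, Prod.snd_zero, zero_mul, h1, mul_one, sub_zero]
    exact alp_ne hb
  · intro a b y
    simp only [hH, alp_alp, zero_mul, add_zero, zero_add, mul_zero]
    congr 2
    by_cases h : β y.1 = 0
    · simp [h]
    · have h1 : γ y.1 = 1 := by
        apply γ.one_of_mem_closedBall
        by_contra h'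
        rw [mem_closedBall, not_le] at h'
        exact h (β.zero_of_le_dist h'.le)
      rw [h1]; ring_nf
  · intro b b' y
    show η (0, b + b') y = η (0, b') y + η (0, b) (y + η (0, b') y • ((0, 1) : F × ℝ))
    rw [hH]
    simp only [hη, alp_alp, zero_mul, add_zero, exp_zero, one_mul]
    rw [show (b + b') * β y.1 = b' * β y.1 + b * β y.1 by ring]
    ring

end Pool.Agent.Lib.MP_95f3db_an.NS
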