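import Pool.Agent.Lib.MP_95f3db_an.NS.Frame

/-!
# The north-south diffeomorphisms form an open subset of the Axiom A no-cycle ones
-/

namespace Pool.Agent.Lib.MP_95f3db_an.NS

open scoped Manifold ContDiff Topology
open Set Filter Metric Function

lemma open_nonwandering_map {M : Type*} [TopologicalSpace M] {f : M → M} (hf : Continuous f) :
    MapsTo f (nonwandering f) (nonwandering f) := by
  intro x hx U hU
  obtain ⟨n, hn, _, ⟨a, ha, rfl⟩, hb⟩ := hx _ (hf.continuousAt.preimage_mem_nhds hU)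
  exact ⟨n, hn, f (f^[n] a), ⟨f a, ha, (Commute.self_iterate f n a).symm⟩, hb⟩

section general

variable {E : Type*} [NormedAddCommGroup E] [NormedSpace ℝ E]
  {M : Type*} [TopologicalSpace M] [ChartedSpace E M] [IsManifold 𝓘(ℝ, E) 1 M]
  {P : Type*} [NormedAddCommGroup P] [NormedSpace ℝ P] [FiniteDimensional ℝ P]

lemma open_isSink {f : Diff1 E M} {B : Set M} {S : M} (h : Sink f B S)
    {g : ∀ x : M, LinearMap.BilinForm ℝ (TangentSpace 𝓘(ℝ, E) x)} (hg : IsRiemannian g) :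
    IsSink f S := by
  obtain ⟨C, l, h1, h2, h3, h4⟩ := h.hyp g hg
  exact ⟨h.fix, g, hg, fun _ _ => ⟨fun _ => trivial, fun _ => trivial⟩, C, l, h1, h2, h3,
    fun w hw _ => h4 w hw⟩

lemma open_mem [T2Space M] {𝓕 : Frame E M P} {m : ℕ} {f : Diff1 E M} (hS : Contr f 𝓕.φS 𝓕.RS)
    (hN : Contr f⁻¹ 𝓕.φN 𝓕.RN) (h : Absorb 𝓕 m f)
    {g : ∀ x : M, LinearMap.BilinForm ℝ (TangentSpace 𝓘(ℝ, E) x)} (hg : IsRiemannian g) :
    f ∈ northSouth E M := by
  obtain ⟨s, hs, es⟩ := hS.exists_fix 𝓕.cS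
  obtain ⟨n, hn, en⟩ := hN.exists_fix 𝓕.cN
  have kS := hS.sink 𝓕.cS hs es
  have kN := hN.sink 𝓕.cN hn en
  refine ⟨𝓕.φN.symm n, 𝓕.φS.symm s, fun e => Set.disjoint_left.mp 𝓕.disj kS.mem (e ▸ kN.mem), ?_,
    open_isSink kS hg, open_isSink kN hg⟩
  refine Subset.antisymm (fun x hx => ?_) ?_
  · by_cases hb : x ∈ 𝓕.φN.symm '' ball 0 𝓕.RN
    · exact Or.inl (kN.wand x (image_mono ball_subset_closedBall hb) (by rwa [nonwandering_inv]))
    · have h1 := kS.wand _ (image_mono ball_subset_closedBall (h x hb))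
        (by rw [diff_coe_pow]; exact (open_nonwandering_map f.continuous).iterate m hx)
      refine Or.inr (diff_inj (f ^ m) ?_)
      rw [h1, diff_coe_pow, iterate_fixed kS.fix]
  · rintro x (rfl | rfl)
    · rw [← nonwandering_inv]; exact fixed_mem_nonwandering kN.fix
    · exact fixed_mem_nonwandering kS.fix

end general

variable {E : Type*} [NormedAddCommGroup E] [InnerProductSpace ℝ E] [FiniteDimensional ℝ E]
  {M : Type*} [TopologicalSpace M] [ChartedSpace E M] [IsManifold 𝓘(ℝ, E) 1 M] [CompactSpace M]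
  [T2Space M]

theorem northSouth_subset : northSouth E M ⊆ axiomANoCycles E M := fun _ hf => by
  obtain ⟨𝓕, m, h, -⟩ := exists_frame hf
  exact h.mem

theorem isOpen_northSouth : IsOpen (northSouth E M) := by
  refine isOpen_iff_mem_nhds.mpr fun f hf => ?_
  obtain ⟨𝓕, m, h, ha⟩ := exists_frame hf
  obtain ⟨-, -, -, -, ⟨-, g, hg, -⟩, -⟩ := hf
  filter_upwards [h.eventually, ha.eventually h] with k h1 h2
  exact open_mem h1.1 h1.2 h2 hg

end Pool.Agent.Lib.MP_95f3db_an.NS
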