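import Mathlib

/-!
# Two polynomial facts for the hairy ball theorem
-/

namespace Pool.Agent.Lib.MP_95f3db_an.NS

open scoped Manifold ContDiff Topology
open Set Filter Metric Function

theorem poly_contra {n : ℕ} (hn : Odd n) (q : Polynomial ℝ) {s : ℝ} (hs : 0 < s)
    (h : ∀ t ∈ Icc (0 : ℝ) s, q.eval t = √(1 + t ^ 2) ^ n) : False := by
  have h1 : q * q = (1 + Polynomial.X ^ 2) ^ n := by
    refine Polynomial.eq_of_infinite_eval_eq _ _ ((Set.Icc_infinite hs).mono fun t ht => ?_)
    have h0 : (0 : ℝ) ≤ 1 + t ^ 2 := by positivity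
    simp only [mem_ofPred_eq, Polynomial.eval_mul, Polynomial.eval_pow, Polynomial.eval_add,
      Polynomial.eval_one, Polynomial.eval_X, h t ht]
    rw [← mul_pow, Real.mul_self_sqrt h0]
  have h2 : (1 + Polynomial.X ^ 2 : Polynomial ℂ) =
      (Polynomial.X + Polynomial.C Complex.I) * (Polynomial.X - Polynomial.C Complex.I) := by
    have h3 : (Polynomial.C Complex.I : Polynomial ℂ) ^ 2 = -1 := by
      rw [← map_pow, Complex.I_sq]; simp
    linear_combination h3
  have h4 : q.map (algebraMap ℝ ℂ) * q.map (algebraMap ℝ ℂ) =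
      (Polynomial.X + Polynomial.C Complex.I) ^ n *
        (Polynomial.X - Polynomial.C Complex.I) ^ n := by
    rw [← Polynomial.map_mul, h1, ← mul_pow, ← h2]
    simp
  have h5 : ((Polynomial.X + Polynomial.C Complex.I) ^ n : Polynomial ℂ) ≠ 0 :=
    pow_ne_zero _ (Polynomial.X_add_C_ne_zero _)
  have h6 : ((Polynomial.X - Polynomial.C Complex.I) ^ n : Polynomial ℂ) ≠ 0 :=
    pow_ne_zero _ (Polynomial.X_sub_C_ne_zero _)
  have h7 : Polynomial.rootMultiplicity Complex.I
      ((Polynomial.X + Polynomial.C Complex.I) ^ n : Polynomial ℂ) = 0 := by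
    refine Polynomial.rootMultiplicity_eq_zero ?_
    simp [Polynomial.IsRoot, ← two_mul]
  have h8 := congrArg (Polynomial.rootMultiplicity Complex.I) h4
  rw [Polynomial.rootMultiplicity_mul (by rw [h4]; exact mul_ne_zero h5 h6),
    Polynomial.rootMultiplicity_mul_X_sub_C_pow h5, h7] at h8
  obtain ⟨k, hk⟩ := hn
  omega

theorem det_lagrange {V : Type*} [NormedAddCommGroup V] [NormedSpace ℝ V] [FiniteDimensional ℝ V]
    (s : Fin (Module.finrank ℝ V + 1) → ℝ) (hs : Injective s) :
    ∃ L : Fin (Module.finrank ℝ V + 1) → Polynomial ℝ, ∀ (A : V →L[ℝ] V) (t : ℝ),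
      (1 + t • A).det = ∑ j, (L j).eval t * (1 + s j • A).det := by
  classical
  refine ⟨fun j => Lagrange.basis Finset.univ s j, fun M t => ?_⟩
  set b := Module.finBasis ℝ V
  set A := LinearMap.toMatrix b b (M : V →ₗ[ℝ] V) with hA
  set p : Polynomial ℝ := Matrix.det ((Polynomial.X : Polynomial ℝ) • A.map Polynomial.C +
    (1 : Matrix _ _ ℝ).map Polynomial.C) with hp
  have hev : ∀ t : ℝ, p.eval t = (1 + t • M).det := by
    intro t
    have h1 : p.eval t = Matrix.det (t • A + 1) := by
      rw [hp, ← Polynomial.coe_evalRingHom, RingHom.map_det]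
      congr 1
      ext i j
      simp [Matrix.one_apply]
      split_ifs <;> simp [mul_comm]
    rw [h1, ContinuousLinearMap.det, ← LinearMap.det_toMatrix b]
    congr 1
    simp [hA, add_comm]
  have hdeg : p.degree < (Finset.univ : Finset (Fin (Module.finrank ℝ V + 1))).card := by
    have := Polynomial.natDegree_det_X_add_C_le A 1
    simp only [Fintype.card_fin] at this
    refine lt_of_le_of_lt Polynomial.degree_le_natDegree ?_
    simp only [Finset.card_univ, Fintype.card_fin]
    exact_mod_cast Nat.lt_succ_of_le this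
  have := Lagrange.eq_interpolate (s := Finset.univ) (v := s) hs.injOn hdeg
  rw [← hev t, this, Lagrange.interpolate_apply, Polynomial.eval_finsetSum]
  refine Finset.sum_congr rfl fun j _ => ?_
  rw [Polynomial.eval_mul, Polynomial.eval_C, hev, mul_comm]

theorem homog_lip {V : Type*} [NormedAddCommGroup V] [NormedSpace ℝ V] [FiniteDimensional ℝ V]
    (w : V → V) (hw : ∀ x ≠ 0, ContDiffAt ℝ 1 w x) (h2 : ∀ x, ‖w x‖ = ‖x‖)
    (h3 : ∀ (t : ℝ) x, 0 < t → w (t • x) = t • w x) :
    ∃ K : ℝ, 1 ≤ K ∧ (∀ x ≠ 0, ‖fderiv ℝ w x‖ ≤ K) ∧ ∀ x y, ‖w x - w y‖ ≤ K * ‖x - y‖ := by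
  have hd : ∀ x ≠ 0, DifferentiableAt ℝ w x := fun x hx => (hw x hx).differentiableAt one_ne_zero
  have hs : ∀ (t : ℝ) (x : V), 0 < t → x ≠ 0 → fderiv ℝ w (t • x) = fderiv ℝ w x := by
    intro t x ht hx
    have a1 : HasFDerivAt (fun y : V => t • y) (t • ContinuousLinearMap.id ℝ V) x :=
      (hasFDerivAt_id x).const_smul t
    have a2 := (hd _ (smul_ne_zero ht.ne' hx)).hasFDerivAt.comp x a1
    have a3 : HasFDerivAt (w ∘ fun y : V => t • y) (t • fderiv ℝ w x) x := by
      have a4 : (w ∘ fun y : V => t • y) = fun y => t • w y := funext fun y => h3 t y ht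
      rw [a4]
      exact (hd x hx).hasFDerivAt.const_smul t
    have a5 := a2.unique a3
    ext v
    have a6 := congrArg (fun L : V →L[ℝ] V => L v) a5
    simp only [ContinuousLinearMap.comp_apply, smul_apply,
      ContinuousLinearMap.id_apply, map_smul] at a6
    exact smul_right_injective V ht.ne' a6
  have hc : ContinuousOn (fderiv ℝ w) (sphere (0 : V) 1) := fun x hx =>
    ((hw x (by rintro rfl; simp at hx)).continuousAt_fderiv one_ne_zero).continuousWithinAt
  obtain ⟨C, hC⟩ := (isCompact_sphere (0 : V) 1).exists_bound_of_continuousOn hc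
  have hK : ∀ x ≠ 0, ‖fderiv ℝ w x‖ ≤ max 1 C := by
    intro x hx
    have hn : 0 < ‖x‖ := norm_pos_iff.2 hx
    rw [← hs ‖x‖⁻¹ x (inv_pos.2 hn) hx]
    refine (hC _ ?_).trans (le_max_right _ _)
    rw [mem_sphere_zero_iff_norm, norm_smul, norm_inv, norm_norm, inv_mul_cancel₀ hn.ne']
  refine ⟨max 1 C, le_max_left _ _, hK, fun x y => ?_⟩
  by_cases h0 : (0 : V) ∈ segment ℝ x y
  · have a1 := dist_add_dist_of_mem_segment h0
    rw [dist_zero_right, dist_zero_left, dist_eq_norm] at a1
    have a2 := norm_sub_le (w x) (w y)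
    rw [h2, h2, a1] at a2
    exact a2.trans (le_mul_of_one_le_left (norm_nonneg _) (le_max_left _ _))
  · exact (convex_segment x y).norm_image_sub_le_of_norm_fderiv_le
      (fun z hz => hd z (by rintro rfl; exact h0 hz))
      (fun z hz => hK z (by rintro rfl; exact h0 hz))
      (right_mem_segment ℝ x y) (left_mem_segment ℝ x y)

end Pool.Agent.Lib.MP_95f3db_an.NS
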