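import Pool.Agent.Lib.MP_95f3db_an.NS.Core
import Pool.Agent.Lib.MP_95f3db_an.NS.Model

/-!
# From a tangency of strong directions to a large centralizer
-/

namespace Pool.Agent.Lib.MP_95f3db_an.NS

open scoped Manifold ContDiff Topology
open Set Filter Metric Function

variable {E : Type*} [NormedAddCommGroup E] [NormedSpace ℝ E] [FiniteDimensional ℝ E]
  {M : Type*} [TopologicalSpace M] [ChartedSpace E M] [IsManifold 𝓘(ℝ, E) 1 M] [CompactSpace M]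
  [T2Space M] {P : Type*} [NormedAddCommGroup P] [NormedSpace ℝ P] [FiniteDimensional ℝ P]

omit [FiniteDimensional ℝ P] in
lemma strong_boundP {Q : Type*} [NormedAddCommGroup Q] [NormedSpace ℝ Q] {A : P ≃L[ℝ] P} {v : P}
    {e : Q} (h : Strong A v) (L : Q ≃L[ℝ] P) {c : ℝ}
    (hL : L e = c • v) : ∃ C : ℝ, ∀ j : ℕ,
      ‖(L.trans (A ^ j)) e‖ * ‖((L.trans (A ^ j)).symm : P →L[ℝ] Q)‖ ≤ C := by
  obtain ⟨C, hC⟩ := h
  refine ⟨|c| * ‖(L.symm : P →L[ℝ] Q)‖ * |C|, fun j => ?_⟩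
  have h1 : ‖‖(L.trans (A ^ j)) e‖ • ((L.trans (A ^ j)).symm : P →L[ℝ] Q)‖ ≤
      |c| * ‖(L.symm : P →L[ℝ] Q)‖ * |C| := by
    refine ContinuousLinearMap.opNorm_le_bound _ (by positivity) fun z => ?_
    obtain ⟨x, rfl⟩ := (L.trans (A ^ j)).surjective z
    rw [smul_apply, norm_smul, norm_norm, ContinuousLinearEquiv.coe_coe,
      ContinuousLinearEquiv.symm_apply_apply, ContinuousLinearEquiv.trans_apply,
      ContinuousLinearEquiv.trans_apply, hL, map_smul, norm_smul, equiv_pow_apply, equiv_pow_apply,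
      Real.norm_eq_abs]
    have a1 := (hC j (L x)).trans (mul_le_mul_of_nonneg_right (le_abs_self C) (norm_nonneg _))
    have a2 := (L.symm : P →L[ℝ] Q).le_opNorm (L x)
    rw [ContinuousLinearEquiv.coe_coe, ContinuousLinearEquiv.symm_apply_apply] at a2
    calc _ ≤ |c| * ‖A^[j] v‖ * (‖(L.symm : P →L[ℝ] Q)‖ * ‖L x‖) := by gcongr
      _ = |c| * ‖(L.symm : P →L[ℝ] Q)‖ * (‖A^[j] v‖ * ‖L x‖) := by ring
      _ ≤ |c| * ‖(L.symm : P →L[ℝ] Q)‖ * (|C| * ‖A^[j] (L x)‖) := by gcongr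
      _ = _ := by ring
  rwa [norm_smul, norm_norm] at h1

omit [FiniteDimensional ℝ E] [IsManifold 𝓘(ℝ, E) 1 M] [CompactSpace M] [T2Space M]
  [FiniteDimensional ℝ P] in
lemma tail_norm {f : Diff1 E M} {φ : OpenPartialHomeomorph M P} {R : ℝ} (h : Contr f φ R) {s : P}
    (hs : s ∈ ball 0 R) {A : P ≃L[ℝ] P}
    (l : ∀ᶠ y in 𝓝 s, f (φ.symm y) = φ.symm (s + A (y - s))) (y : P) : ‖A y‖ ≤ ‖y‖ := by
  have hs' := ball_subset_closedBall hs
  have h0 : HasFDerivAt (fun y => s + A (y - s)) (A : P →L[ℝ] P) s :=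
    (A.hasFDerivAt.comp s ((hasFDerivAt_id s).sub_const s)).const_add s
  have h1 : rep f φ φ =ᶠ[𝓝 s] fun y => s + A (y - s) := by
    filter_upwards [l, h0.continuousAt.eventually
      (φ.open_target.mem_nhds (by simpa using (h.dom hs').1))] with z hz hz'
    rw [rep, hz, φ.right_inv hz']
  have h2 := h.lt s hs'
  rw [h1.fderiv_eq, h0.fderiv] at h2
  simpa using (A : P →L[ℝ] P).le_of_opNorm_le h2.le y

theorem tail {𝓕 : Frame E M P} {f : Diff1 E M} (hf : Good 𝓕 f) {W : Set (Diff1 E M)}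
    (hW : W ∈ 𝓝 f) {s n : P} (hs : s ∈ ball 0 𝓕.RS) (hn : n ∈ ball 0 𝓕.RN) {A B : P ≃L[ℝ] P}
    (l1 : ∀ᶠ y in 𝓝 s, f (𝓕.φS.symm y) = 𝓕.φS.symm (s + A (y - s)))
    (l2 : ∀ᶠ y in 𝓝 n, f⁻¹ (𝓕.φN.symm y) = 𝓕.φN.symm (n + B (y - n)))
    {v w : P} (hw : w ≠ 0) (sv : Strong A v) (sw : Strong B w)
    (htan : ∀ r > 0, ∃ (N : ℕ) (a : P) (c : ℝ), a ∈ ball n r ∧ a ∈ Dom (f ^ N) 𝓕.φN 𝓕.φS ∧
      rep (f ^ N) 𝓕.φN 𝓕.φS a ∈ ball s r ∧ fderiv ℝ (rep (f ^ N) 𝓕.φN 𝓕.φS) a w = c • v) :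
    ∃ f' ∈ W, Good 𝓕 f' ∧ FlowInCentralizer f' := by
  have : CompleteSpace P := FiniteDimensional.complete ℝ P
  have : ProperSpace P := FiniteDimensional.proper ℝ P
  have hA1 := tail_norm hf.S hs l1
  have hB1 := tail_norm hf.N hn l2
  have hn2 : rep f⁻¹ 𝓕.φN 𝓕.φN n = n := by
    rw [rep, l2.self_of_nhds, sub_self, map_zero, add_zero,
      𝓕.φN.right_inv (hf.N.dom (ball_subset_closedBall hn)).1]
  obtain ⟨r₁, hr₁, b1⟩ := Metric.nhds_basis_closedBall.eventually_iff.mp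
    (l1.and (isOpen_ball.eventually_mem hs))
  obtain ⟨r₂, hr₂, b2⟩ := Metric.nhds_basis_closedBall.eventually_iff.mp
    (l2.and (isOpen_ball.eventually_mem hn))
  obtain ⟨N, a, c, ha, had, hb, htan⟩ := htan _ (lt_min hr₁ hr₂)
  replace ha : a ∈ ball n r₂ := ball_subset_ball (min_le_right _ _) ha
  replace hb : rep (f ^ N) 𝓕.φN 𝓕.φS a ∈ ball s r₁ := ball_subset_ball (min_le_left _ _) hb
  have haR := (b2 (ball_subset_closedBall ha)).2
  have hbR := (b1 (ball_subset_closedBall hb)).2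
  have m1 : 𝓕.φN.symm a ∈ 𝓕.φN.symm '' closedBall 0 𝓕.RN := ⟨a, ball_subset_closedBall haR, rfl⟩
  have m2 : (f ^ N) (𝓕.φN.symm a) ∈ 𝓕.φS.symm '' closedBall 0 𝓕.RS :=
    ⟨_, ball_subset_closedBall hbR, Dom.symm_rep had⟩
  have hN : 1 ≤ N := by
    rcases N with _ | N
    · exact absurd m1 (Set.disjoint_left.mp 𝓕.disj m2)
    · omega
  have sN := hf.N.sink 𝓕.cN (ball_subset_closedBall hn) hn2
  have hwand : 𝓕.φN.symm a ∉ nonwandering f := by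
    intro h'
    have e := sN.wand _ m1 (by rwa [nonwandering_inv])
    have e2 : f (𝓕.φN.symm n) = 𝓕.φN.symm n := by
      conv_lhs => rw [← sN.fix]
      simp
    rw [e, diff_coe_pow, iterate_fixed e2] at m2
    exact Set.disjoint_left.mp 𝓕.disj m2 sN.mem
  simp only [nonwandering, mem_ofPred_eq, not_forall, not_exists, not_and] at hwand
  obtain ⟨U, hU, hU'⟩ := hwand
  have hV : 𝓕.φN.symm ⁻¹' U ∈ 𝓝 a := (𝓕.φN.continuousAt_symm had.1).preimage_mem_nhds hU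
  obtain ⟨σ₃, g3, w3, o3, l3⟩ := hf.affine (interior_mem_nhds.mpr hW) (Or.inr ⟨rfl, rfl⟩) 𝓕.cS haR had hV
  obtain ⟨p1, p2, p3⟩ := wander_pert (f := f) (σ := σ₃) (U := U)
    (fun x hx => o3 x (by rintro ⟨y, hy, rfl⟩; exact hx hy.1))
    (fun n hn x hx hx' => hU' n hn ⟨_, ⟨x, hx, rfl⟩, hx'⟩)
  set f₃ := f * σ₃
  obtain ⟨L, hL, -⟩ := exists_equiv_rep 𝓕.cN 𝓕.cS had
  rw [← hL] at l3 htan
  set b := rep (f ^ N) 𝓕.φN 𝓕.φS a
  -- the boxes
  have : Nontrivial P := nontrivial_of_ne _ _ hw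
  have hrk : 0 < Module.finrank ℝ P := Module.finrank_pos
  let F := EuclideanSpace ℝ (Fin (Module.finrank ℝ P - 1))
  have L₂ : (F × ℝ) ≃L[ℝ] P := ContinuousLinearEquiv.ofFinrankEq (by simp [F]; omega)
  obtain ⟨𝓜, hadd⟩ := exists_model_add F
  obtain ⟨L₃, hL₃⟩ := SeparatingDual.exists_continuousLinearEquiv_apply_eq (R := ℝ)
    (show L₂ (0, 1) ≠ 0 by simp) hw
  obtain ⟨L₁, hL₁⟩ : ∃ L₁ : (F × ℝ) ≃L[ℝ] P, L₁ (0, 1) = w := ⟨L₂.trans L₃, hL₃⟩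
  have hG : ∀ᶠ y in 𝓝 a, b + L (y - a) ∈ ball s r₁ := by
    have : Continuous fun y => b + L (y - a) := by fun_prop
    exact this.continuousAt.eventually (isOpen_ball.mem_nhds (by simpa using hb))
  have hsmall : ∀ᶠ t : ℝ in 𝓝 0, ∀ y ∈ 𝓜.D, (fun y => (((f ^ N) (σ₃ (𝓕.φN.symm y)) =
      𝓕.φS.symm (b + L (y - a)) ∧ b + L (y - a) ∈ ball s r₁) ∧ y ∈ ball n r₂) ∧
      y ∈ 𝓕.φN.symm ⁻¹' U) (a + t • L₁ y) := by
    refine 𝓜.cpt.eventually_forall_of_forall_eventually fun y _ => ?_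
    have : Continuous fun z : ℝ × (F × ℝ) => a + z.1 • L₁ z.2 := by fun_prop
    have h' := this.tendsto (0, y)
    simp only [zero_smul, add_zero] at h'
    exact h'.eventually (((l3.and hG).and (isOpen_ball.eventually_mem ha)).and hV)
  obtain ⟨t, ht, ht0⟩ := ((hsmall.filter_mono nhdsWithin_le_nhds).and
    (self_mem_nhdsWithin (a := (0 : ℝ)) (s := {0}ᶜ))).exists
  set L₀ : (F × ℝ) ≃L[ℝ] P := L₁.trans (ContinuousLinearEquiv.smulLeft (R₁ := ℝ)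
    (Units.mk0 t ht0)) with hL₀
  have hL₀' : ∀ y, L₀ y = t • L₁ y := fun y => rfl
  simp only [← hL₀'] at ht
  obtain ⟨CN, hCN⟩ := strong_boundP sw L₀ (e := (0, 1)) (c := t) (by rw [hL₀', hL₁])
  obtain ⟨CS, hCS⟩ := strong_boundP sv (L₀.trans L) (e := (0, 1)) (c := t * c) (by
    rw [ContinuousLinearEquiv.trans_apply, hL₀', hL₁, map_smul, ← smul_smul, ← htan]; rfl)
  refine (coreP (𝓜 := 𝓜) (ι := fun y => 𝓕.φN.symm (a + L₀ y)) g3
    (isOpen_interior.mem_nhds w3) hadd hN (C := max CS CN) ⟨fun k => ?_⟩ ⟨fun k => ?_⟩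
    (fun i y hy y' hy' e => p3 i _ (ht y hy).2 _ (ht y' hy').2 e)).imp
    fun f' h => ⟨interior_subset h.1, h.2⟩
  · refine ⟨s + (A ^ k) (b - s), (L₀.trans L).trans (A ^ k), (hCS k).trans (le_max_left _ _),
      fun y hy => ?_⟩
    obtain ⟨⟨⟨q1, q2⟩, -⟩, q4⟩ := ht y hy
    rw [add_sub_cancel_left] at q1 q2
    obtain ⟨q5, q6⟩ := lin_iter (A := A) hA1
      (fun y hy => (b1 hy).1) k (ball_subset_closedBall q2)
    have e : s + (A ^ k) (b - s) + ((L₀.trans L).trans (A ^ k)) y =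
        s + A^[k] (b + L (L₀ y) - s) := by
      rw [← equiv_pow_apply, add_assoc, ContinuousLinearEquiv.trans_apply, ← map_add]
      congr 2
      simp only [ContinuousLinearEquiv.trans_apply]
      abel
    rw [e]
    refine ⟨ball_subset_closedBall (b1 q5).2, ?_⟩
    obtain ⟨N, rfl⟩ : ∃ N', N = N' + 1 := ⟨N - 1, by omega⟩
    rw [← q6, ← q1, ← Nat.cast_add, zpow_natCast, diff_coe_pow, diff_coe_pow,
      show N + 1 + k = (k + N) + 1 by ring, p1 _ _ q4, ← iterate_add_apply, add_assoc]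
  · refine ⟨n + (B ^ k) (a - n), L₀.trans (B ^ k), (hCN k).trans (le_max_right _ _),
      fun y hy => ?_⟩
    obtain ⟨⟨-, q3⟩, q4⟩ := ht y hy
    obtain ⟨q5, q6⟩ := lin_iter (A := B) hB1
      (fun y hy => (b2 hy).1) k (ball_subset_closedBall q3)
    have e : n + (B ^ k) (a - n) + (L₀.trans (B ^ k)) y = n + B^[k] (a + L₀ y - n) := by
      rw [← equiv_pow_apply, add_assoc, ContinuousLinearEquiv.trans_apply, ← map_add]
      congr 2
      abel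
    rw [e]
    refine ⟨ball_subset_closedBall (b2 q5).2, ?_⟩
    rw [← q6, zpow_neg, zpow_natCast, ← inv_pow, diff_coe_pow, p2 _ _ q4]

end Pool.Agent.Lib.MP_95f3db_an.NS
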